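import Pool.Agent.Lib_helper72.RR.Glue

/-!
The theorem for the ring generated by the roots of unity and the roots of `α` and `α⁻¹`.
-/

namespace RR

open Finset Polynomial MS IntermediateField

universe u

variable {Ω : Type u} [Field Ω] [Algebra ℚ Ω]

/-- characters with orthogonality -/
theorem exists_orth [IsAlgClosed Ω] (d : ℕ) [NeZero d] : ∃ ψ : AddChar (ZMod d) Ω, Orth ψ := by
  have : CharZero Ω := algebraRat.charZero Ω
  obtain ⟨ζ, hζ⟩ := HasEnoughRootsOfUnity.exists_primitiveRoot Ω d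
  refine ⟨AddChar.zmodChar d hζ.pow_eq_one, ?_⟩
  intro x hx
  have h := AddChar.sum_mulShift x (AddChar.zmodChar_primitive_of_primitive_root d hζ)
  rw [if_neg hx] at h
  simpa using h

/-- the exponents with `γ ^ k ∈ F` -/
theorem exists_min_exp {F : IntermediateField ℚ Ω} {γ : Ω} (hγ0 : γ ≠ 0) {N : ℕ} (hN : 0 < N)
    (h : γ ^ N ∈ F) : ∃ d : ℕ, 0 < d ∧ γ ^ d ∈ F ∧ (∀ k : ℕ, 0 < k → k < d → γ ^ k ∉ F) ∧ d ∣ N := by
  classical
  have hex : ∃ k : ℕ, 0 < k ∧ γ ^ k ∈ F := ⟨N, hN, h⟩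
  set d := Nat.find hex with hd
  obtain ⟨hd0, hdF⟩ := Nat.find_spec hex
  have hmin : ∀ k : ℕ, 0 < k → k < d → γ ^ k ∉ F := fun k hk hkd hkF =>
    Nat.find_min hex hkd ⟨hk, hkF⟩
  refine ⟨d, hd0, hdF, hmin, ?_⟩
  rw [Nat.dvd_iff_mod_eq_zero]
  by_contra hne
  apply hmin (N % d) (Nat.pos_of_ne_zero hne) (Nat.mod_lt _ hd0)
  have h1 : γ ^ (N % d) = γ ^ N * ((γ ^ d) ^ (N / d))⁻¹ := by
    rw [eq_mul_inv_iff_mul_eq₀ (pow_ne_zero _ (pow_ne_zero _ hγ0)), ← pow_mul, ← pow_add,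
      Nat.mod_add_div]
  rw [h1]
  exact mul_mem h (inv_mem (pow_mem hdF _))

/-- the minimal polynomial -/
theorem minpoly_pure {F : IntermediateField ℚ Ω} (hF : ∀ (ζ : Ω) (n : ℕ), 0 < n → ζ ^ n = 1 → ζ ∈ F)
    {γ : Ω} (hγ0 : γ ≠ 0) {d : ℕ} (hd : 0 < d) (hodd : Odd d) (hdF : γ ^ d ∈ F)
    (hmin : ∀ k : ℕ, 0 < k → k < d → γ ^ k ∉ F) :
    minpoly F γ = X ^ d - C (⟨γ ^ d, hdF⟩ : F) := by
  symm
  refine minpoly.eq_of_irreducible_of_monic ?_ ?_ (monic_X_pow_sub_C _ hd.ne')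
  · rw [X_pow_sub_C_irreducible_iff_forall_prime_of_odd hodd]
    intro p hp hpd b hb
    obtain ⟨m, rfl⟩ := hpd
    have hm : 0 < m := Nat.pos_of_ne_zero (by rintro rfl; simp at hd)
    have hb' : (b : Ω) ^ p = γ ^ (p * m) := congrArg (fun x : F => (x : Ω)) hb
    have hb0 : (b : Ω) ≠ 0 := by
      intro h
      rw [h, zero_pow hp.ne_zero] at hb'
      exact pow_ne_zero _ hγ0 hb'.symm
    have h1 : (γ ^ m * (b : Ω)⁻¹) ^ p = 1 := by
      rw [mul_pow, inv_pow, hb', ← pow_mul, mul_comm m p, mul_inv_cancel₀ (pow_ne_zero _ hγ0)]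
    have h2 := hF _ p hp.pos h1
    have h3 : γ ^ m ∈ F := by
      have := mul_mem h2 b.2
      rwa [inv_mul_cancel_right₀ hb0] at this
    exact hmin m hm (lt_mul_of_one_lt_left hm hp.one_lt) h3
  · rw [map_sub, map_pow, aeval_X, aeval_C, sub_eq_zero]
    rfl

/-- reduction of a polynomial -/
theorem reduce {α : Ω} {S T : Set ℕ} (hU : UnitAt α T) {γ : Ω} {N : ℕ}
    (hN : 0 < N) (hγ : γ ^ N = α) {β : Ω} (hβ : β ∈ Algebra.adjoin (OS α S T) {γ}) {d : ℕ}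
    (hd : 0 < d) (hdF : γ ^ d ∈ MSF α S) :
    ∃ A : (MSF α S)[X], A.natDegree < d ∧ aeval γ A = β ∧
      ∀ n, algebraMap (MSF α S) Ω (A.coeff n) ∈ OS α S T := by
  rw [Algebra.adjoin_singleton_eq_range_aeval] at hβ
  obtain ⟨P, hP⟩ := hβ
  have hP' : aeval γ P = β := hP
  have htO : γ ^ d ∈ OS α S T := by
    refine ⟨hdF, fun l _ hl τ => ?_⟩
    rw [map_pow, norm_pow, norm_root hN hγ (hU l hl τ), one_pow]
  set q : (OS α S T)[X] := X ^ d - C ⟨γ ^ d, htO⟩ with hq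
  have hqm : q.Monic := monic_X_pow_sub_C _ hd.ne'
  have hq0 : aeval γ q = 0 := by
    rw [hq, map_sub, map_pow, aeval_X, aeval_C, sub_eq_zero]
    rfl
  have hqd : q.natDegree = d := natDegree_X_pow_sub_C
  set P' := P %ₘ q with hP'
  have h1 : aeval γ P' = β := by
    have h2 := modByMonic_add_div P q
    have h3 := congrArg (aeval γ) h2
    rw [map_add, map_mul, hq0, zero_mul, add_zero] at h3
    rw [h3]
    assumption
  let ι : OS α S T →+* MSF α S :=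
    { toFun := fun x => ⟨x, x.2.1⟩
      map_one' := rfl
      map_mul' := fun _ _ => rfl
      map_zero' := rfl
      map_add' := fun _ _ => rfl }
  refine ⟨P'.map ι, ?_, ?_, ?_⟩
  · refine lt_of_le_of_lt natDegree_map_le ?_
    have : q ≠ 1 := by
      intro h
      rw [h, natDegree_one] at hqd
      omega
    rw [← hqd]
    exact natDegree_modByMonic_lt P hqm this
  · rw [← h1, aeval_def, aeval_def, eval₂_map]
    rfl
  · intro n
    rw [coeff_map]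
    exact (P'.coeff n).2

variable [Algebra.IsAlgebraic ℚ Ω] [IsAlgClosed Ω]

/-- elements are integral outside of a finite set of primes -/
theorem int_outside (x : Ω) : ∃ C : ℕ, 0 < C ∧ ∀ (l : ℕ) [Fact l.Prime], ¬ l ∣ C →
    ∀ τ : Ω →+* PadicAlgCl l, ‖τ x‖ ≤ 1 := by
  obtain ⟨E, _, _, _, φ, v, hv⟩ := exists_field_fin (Ω := Ω) (fun _ : Unit => x)
  obtain ⟨C, hC, _, h⟩ := ht_key (v ())
  refine ⟨C, hC, fun l hl hlC τ => ?_⟩
  have h1 := h l
  have h2 : ‖(C : ℚ_[l])‖ = 1 := by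
    have := norm_natCast_prime (l := l) hlC
    rw [← map_natCast (algebraMap ℚ_[l] (PadicAlgCl l)), norm_algebraMap'] at this
    exact this
  rw [h2, one_mul] at h1
  set τ' : E →ₐ[ℚ] PadicAlgCl l := (τ.comp φ).toRatAlgHom with hτ'
  have h3 : max 1 ‖τ' (v ())‖ ≤ 1 := by
    classical
    rw [← Finset.mul_prod_erase univ _ (mem_univ τ')] at h1
    have h5 : (1 : ℝ) ≤ ∏ τ ∈ univ.erase τ', max 1 ‖τ (v ())‖ :=
      Finset.prod_induction _ (fun x => (1 : ℝ) ≤ x)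
        (fun a b ha hb => one_le_mul_of_one_le_of_one_le ha hb) le_rfl
        (fun τ _ => le_max_left _ _)
    refine le_of_le_of_eq ?_ h1
    exact le_mul_of_one_le_right (le_trans zero_le_one (le_max_left _ _)) h5
  have h4 : τ' (v ()) = τ x := by
    rw [← hv ()]
    rfl
  rw [← h4]
  exact (le_max_right _ _).trans h3

theorem exists_S {α : Ω} (h0 : α ≠ 0) {s : ℕ} (hs : 0 < s) : ∃ S : Finset ℕ, 2 ∈ S ∧
    (∀ q : ℕ, q.Prime → q ∣ s → q ∈ S) ∧ UnitAt α {l : ℕ | l ∉ S} := by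
  classical
  obtain ⟨C, hC, h1⟩ := int_outside α
  obtain ⟨C', hC', h2⟩ := int_outside (α⁻¹)
  refine ⟨{2} ∪ s.primeFactors ∪ C.primeFactors ∪ C'.primeFactors, by simp, ?_, ?_⟩
  · intro q hq hqs
    have : q ∈ s.primeFactors := Nat.mem_primeFactors.2 ⟨hq, hqs, hs.ne'⟩
    simp only [mem_union]
    tauto
  · intro l hl hlS τ
    rw [Set.mem_ofPred_eq] at hlS
    simp only [mem_union, not_or] at hlS
    have e1 : ¬ l ∣ C := fun h => hlS.1.2 (Nat.mem_primeFactors.2 ⟨hl.out, h, hC.ne'⟩)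
    have e2 : ¬ l ∣ C' := fun h => hlS.2 (Nat.mem_primeFactors.2 ⟨hl.out, h, hC'.ne'⟩)
    have h3 := h1 l e1 τ
    have h4 := h2 l e2 τ
    rw [map_inv₀, norm_inv] at h4
    have h5 : 0 < ‖τ α‖ := by rw [norm_pos_iff, Ne, map_eq_zero]; exact h0
    refine le_antisymm h3 ?_
    rw [inv_le_one₀ h5] at h4
    exact h4

/-- the elements of `M_S[γ]` with coefficients integral at the primes dividing the order of `γ` -/
theorem core {α : Ω} (h0 : α ≠ 0) {S : Finset ℕ} (h2S : 2 ∈ S) {cS : ℝ} (hcS : 0 < cS)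
    (hsmall : ∀ x ∈ MSF α (S : Set ℕ), x ≠ 0 → x ∉ DivG α → cS ≤ ht x) {T : Set ℕ}
    (hU : UnitAt α T) {N : ℕ} (hN : CoP (S : Set ℕ) N) (hNT : ∀ q : ℕ, q.Prime → q ∣ N → q ∈ T)
    {γ : Ω} (hγ : γ ^ N = α) {β : Ω} (hβγ : β ∈ Algebra.adjoin (OS α (S : Set ℕ) T) {γ})
    (hβ0 : β ≠ 0) (hβD : β ∉ DivG α) : min (1 / 32) (cS / 2) ≤ ht β := by
  have hα0 := ht_nonneg α
  obtain ⟨k, hk⟩ : ∃ k : ℕ, ht α / 2 ^ k ≤ cS / 2 := by
    obtain ⟨k, hk⟩ := pow_unbounded_of_one_lt (2 * ht α / cS) (by norm_num : (1 : ℝ) < 2)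
    refine ⟨k, ?_⟩
    rw [div_le_iff₀ (by positivity)]
    rw [div_lt_iff₀ hcS] at hk
    linarith
  have hγ0 : γ ≠ 0 := by
    rintro rfl
    rw [zero_pow hN.1.ne'] at hγ
    exact h0 hγ.symm
  have hγD : γ ∈ DivG α := root_mem_DivG h0 hN.1 hγ
  have hNF : γ ^ N ∈ MSF α (S : Set ℕ) := by rw [hγ]; exact alpha_mem_MSF
  obtain ⟨d, hd, hdF, hmin, hdN⟩ := exists_min_exp hγ0 hN.1 hNF
  have hdS : ∀ q : ℕ, q.Prime → q ∣ d → q ∉ (S : Set ℕ) := fun q hq h =>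
    hN.2 q hq (h.trans hdN)
  have hodd : Odd d := by
    rw [← Nat.not_even_iff_odd]
    intro he
    exact hdS 2 Nat.prime_two he.two_dvd (by exact_mod_cast h2S)
  have hF : ∀ (ζ : Ω) (n : ℕ), 0 < n → ζ ^ n = 1 → ζ ∈ MSF α (S : Set ℕ) :=
    fun ζ n hn h => unity_mem_MSF hn h
  have hm := minpoly_pure hF hγ0 hd hodd hdF hmin
  obtain ⟨A, hAd, hAβ, hAc⟩ := reduce hU hN.1 hγ hβγ hd hdF
  have hA0 : A ≠ 0 := by
    rintro rfl
    rw [map_zero] at hAβ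
    exact hβ0 hAβ.symm
  have : NeZero d := ⟨hd.ne'⟩
  obtain ⟨ψ, hψ⟩ := exists_orth (Ω := Ω) d
  have hthm := thmA hγ0 hm hψ hAd hA0 (by
    intro l hl hld τ n
    have hlT : l ∈ T := hNT l hl.out (hld.trans hdN)
    rw [map_mul, map_pow, norm_mul, norm_pow, norm_root hN.1 hγ (hU l hlT τ), one_pow, mul_one]
    exact (hAc n).2 l hlT τ)
  rw [hAβ] at hthm
  rcases hthm with ⟨c, j, hc⟩ | h
  · refine (min_le_right _ _).trans ?_
    have hw : γ ^ j ∈ DivG α := pow_mem_DivG hγD j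
    obtain ⟨δ, hδ⟩ := IsAlgClosed.exists_pow_nat_eq α (n := 2 ^ k) (by positivity)
    have hδS : Smooth (S : Set ℕ) (2 ^ k) := by
      refine ⟨by positivity, fun q hq h => ?_⟩
      rw [(Nat.prime_dvd_prime_iff_eq hq Nat.prime_two).1 (hq.dvd_of_dvd_pow h)]
      exact_mod_cast h2S
    have hδM : δ ∈ MSF α (S : Set ℕ) := root_mem_MSF hδS hδ
    have hδD : δ ∈ DivG α := root_mem_DivG h0 (by positivity) hδ
    have hδ0 : δ ≠ 0 := hδD.1
    obtain ⟨e, he⟩ := ht_round h0 hw (M := 2 ^ k) (by positivity) hδ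
    push_cast at he
    have hc0 : algebraMap (MSF α (S : Set ℕ)) Ω c ≠ 0 := by
      intro h
      rw [h, zero_mul] at hc
      exact hβ0 hc
    have hx1 : algebraMap (MSF α (S : Set ℕ)) Ω c * δ ^ e ∈ MSF α (S : Set ℕ) :=
      mul_mem c.2 (zpow_mem hδM e)
    have hx2 : algebraMap (MSF α (S : Set ℕ)) Ω c * δ ^ e ≠ 0 :=
      mul_ne_zero hc0 (zpow_ne_zero _ hδ0)
    have hx3 : algebraMap (MSF α (S : Set ℕ)) Ω c * δ ^ e ∉ DivG α := by
      intro h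
      apply hβD
      have h1 : β = (algebraMap (MSF α (S : Set ℕ)) Ω c * δ ^ e) * (γ ^ j * δ ^ (-e)) := by
        rw [hc]
        have : δ ^ e * δ ^ (-e) = 1 := by rw [← zpow_add₀ hδ0, add_neg_cancel, zpow_zero]
        linear_combination (-(algebraMap (MSF α (S : Set ℕ)) Ω c * γ ^ j)) * this
      rw [h1]
      exact mul_mem_DivG h0 h (mul_mem_DivG h0 hw (zpow_mem_DivG hδD _))
    have h1 := hsmall _ hx1 hx2 hx3
    have h2 : algebraMap (MSF α (S : Set ℕ)) Ω c * δ ^ e = β * (γ ^ j * δ ^ (-e))⁻¹ := by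
      rw [hc, mul_inv, zpow_neg, inv_inv]
      have := pow_ne_zero j hγ0
      field_simp
    rw [h2] at h1
    have h3 := ht_mul_le β (γ ^ j * δ ^ (-e))⁻¹
    rw [ht_inv] at h3
    linarith
  · exact (min_le_left _ _).trans h


/-- **The theorem for the ring.** -/
theorem ring_thm {α : Ω} (h0 : α ≠ 0) (htor : ∀ n : ℕ, 0 < n → α ^ n ≠ 1) {s : ℕ} (hs : 0 < s) :
    ∃ c : ℝ, 0 < c ∧ ∀ β ∈ RG α s, β ≠ 0 → β ∉ DivG α → c ≤ ht β := by
  obtain ⟨S, h2S, hSs, hU⟩ := exists_S h0 hs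
  obtain ⟨cS, hcS, hsmall⟩ := small_points h0 htor S
  refine ⟨min (1 / 32) (cS / 2), lt_min (by norm_num) (by linarith), ?_⟩
  intro β hβ hβ0 hβD
  obtain ⟨N, hN, hNU⟩ := RG_InU (S := (S : Set ℕ)) h0 hU
    (fun q hq h hqT => hqT (hSs q hq h)) hβ
  obtain ⟨γ, hγ⟩ := IsAlgClosed.exists_pow_nat_eq α hN.1
  exact core h0 h2S hcS hsmall hU hN (fun q hq h => hN.2 q hq h) hγ (hNU γ hγ) hβ0 hβD

/-- algebraic integers have `l`-adic absolute value at most one -/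
theorem norm_int_le {l : ℕ} [Fact l.Prime] {y : PadicAlgCl l} (hy : IsIntegral ℤ y) :
    ‖y‖ ≤ 1 := by
  obtain ⟨p, hp, he⟩ := hy
  by_contra hcon
  rw [not_le] at hcon
  have hcoef : ∀ i, ‖algebraMap ℤ (PadicAlgCl l) (p.coeff i)‖ ≤ 1 := by
    intro i
    rw [eq_intCast, ← map_intCast (algebraMap ℚ_[l] (PadicAlgCl l)), norm_algebraMap']
    exact Padic.norm_int_le_one _
  rw [eval₂_eq_sum_range, Finset.sum_range_succ] at he
  have hlead : p.coeff p.natDegree = 1 := hp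
  rw [hlead, map_one, one_mul, add_eq_zero_iff_neg_eq] at he
  have h1 : ‖y‖ ^ p.natDegree ≤ ‖y‖ ^ (p.natDegree - 1) := by
    rw [← norm_pow, ← he, norm_neg]
    refine norm_sum_le' (hna l) _ _ (by positivity) fun i hi => ?_
    rw [norm_mul, norm_pow]
    rw [mem_range] at hi
    calc _ ≤ 1 * ‖y‖ ^ (p.natDegree - 1) :=
          mul_le_mul (hcoef i) (pow_le_pow_right₀ hcon.le (by omega)) (by positivity) zero_le_one
      _ = _ := one_mul _
  rcases Nat.eq_zero_or_pos p.natDegree with h | h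
  · rw [h, Finset.range_zero, Finset.sum_empty, neg_zero, pow_zero] at he
    exact zero_ne_one he
  · have h2 := pow_lt_pow_right₀ hcon (Nat.sub_lt h one_pos)
    linarith

omit [Algebra.IsAlgebraic ℚ Ω] [IsAlgClosed Ω] in
theorem MSF_mono {α : Ω} {S S' : Set ℕ} (h : S ⊆ S') : MSF α S ≤ MSF α S' := by
  unfold MSF
  refine adjoin.mono _ _ _ ?_
  rintro x (hx | ⟨n, hn, hx⟩)
  · exact Or.inl hx
  · exact Or.inr ⟨n, ⟨hn.1, fun q hq hqn => h (hn.2 q hq hqn)⟩, hx⟩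

/-- **The theorem for sums with coefficients whose denominators are prime to the order.** -/
theorem coeff_thm {α : Ω} (h0 : α ≠ 0) (htor : ∀ n : ℕ, 0 < n → α ^ n ≠ 1) (S : Finset ℕ) :
    ∃ c : ℝ, 0 < c ∧ ∀ (N : ℕ), CoP (S : Set ℕ) N → ∀ γ : Ω, γ ^ N = α →
      ∀ (n : ℕ) (x : ℕ → Ω), (∀ j, x j ∈ MSF α (S : Set ℕ)) →
        (∀ j, ∃ m : ℕ, m.Coprime N ∧ IsIntegral ℤ ((m : Ω) * x j)) →
        ∀ β : Ω, β = ∑ j ∈ range n, x j * γ ^ j → β ≠ 0 → β ∉ DivG α → c ≤ ht β := by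
  classical
  obtain ⟨S₁, h2S, -, hU⟩ := exists_S (s := 1) h0 one_pos
  set S' : Finset ℕ := S ∪ S₁ with hS'
  obtain ⟨cS, hcS, hsmall⟩ := small_points h0 htor S'
  refine ⟨min (1 / 32) (cS / 2), lt_min (by norm_num) (by linarith), ?_⟩
  intro N hN γ hγ n x hx hxm β hβ hβ0 hβD
  obtain ⟨a, b, hab, ha, hb⟩ := split (S' : Set ℕ) N hN.1
  have hco : Nat.Coprime a b :=
    Nat.coprime_of_dvd fun q hq h1 h2 => hb.2 q hq h2 (ha.2 q hq h1)
  obtain ⟨u, v, huv⟩ := Nat.isCoprime_iff_coprime.2 hco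
  set T : Set ℕ := {l | l ∣ b} with hT
  have hlT : ∀ l : ℕ, l.Prime → l ∈ T → l ∉ S' := fun l hl h h' => hb.2 l hl h (by exact_mod_cast h')
  have hUT : UnitAt α T := by
    intro l hl hl' τ
    refine hU l ?_ τ
    intro h
    exact hlT l hl.out hl' (mem_union_right _ h)
  have hγ0 : γ ≠ 0 := by
    rintro rfl
    rw [zero_pow hN.1.ne'] at hγ
    exact h0 hγ.symm
  have hγb : (γ ^ a) ^ b = α := by rw [← pow_mul, ← hab, hγ]
  have hρ : (γ ^ b) ^ a = α := by rw [← pow_mul, mul_comm b a, ← hab, hγ]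
  set B := Algebra.adjoin (OS α (S' : Set ℕ) T) {γ ^ a} with hB
  have hγB : γ ^ a ∈ B := Algebra.subset_adjoin (Set.mem_singleton _)
  have hγB' : (γ ^ a)⁻¹ ∈ B := inv_mem_adjoin h0 hUT hb.1 hγb
  have hOS : ∀ z : Ω, z ∈ OS α (S' : Set ℕ) T → z ∈ B := fun z hz => B.algebraMap_mem ⟨z, hz⟩
  have hγm : γ ∈ B := by
    have h1 : γ = (γ ^ a) ^ u * (γ ^ b) ^ v := by
      rw [← zpow_natCast γ a, ← zpow_natCast γ b, ← zpow_mul, ← zpow_mul, ← zpow_add₀ hγ0]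
      have : (a : ℤ) * u + b * v = 1 := by linarith
      rw [this, zpow_one]
    rw [h1]
    exact mul_mem (zpow_mem_of B hγB hγB' u) (hOS _ (root_zpow_mem_OS hUT ha hρ v))
  have hxB : ∀ j, x j ∈ B := by
    intro j
    refine hOS _ ⟨MSF_mono (by simp [hS']) (hx j), fun l hl hlb τ => ?_⟩
    obtain ⟨m, hm, hint⟩ := hxm j
    have hlN : l ∣ N := by
      rw [hab]
      exact Dvd.dvd.mul_left hlb a
    have hlm : ¬ l ∣ m := fun h => by
      have := Nat.dvd_gcd h hlN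
      rw [hm] at this
      exact hl.out.one_lt.ne' (Nat.dvd_one.1 this)
    have h1 : ‖τ ((m : Ω) * x j)‖ ≤ 1 := norm_int_le (hint.map (τ.toIntAlgHom))
    rw [map_mul, map_natCast, norm_mul, norm_natCast_prime hlm, one_mul] at h1
    exact h1
  have hβB : β ∈ B := by
    rw [hβ]
    exact sum_mem fun j _ => mul_mem (hxB j) (pow_mem hγm j)
  refine core h0 (mem_union_right _ h2S) hcS hsmall hUT hb (fun q _ h => h) hγb hβB hβ0 hβD

end RR
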