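import Mathlib

/-!
Averaging over all subsets of `ℤ/d`: the weights are concentrated at one point.
-/

namespace RR

open Finset

theorem card_xor {α : Type*} [Fintype α] [DecidableEq α] {a b : α} (h : a ≠ b) :
    2 * (univ.filter (fun I : Finset α => ¬ (a ∈ I ↔ b ∈ I))).card = 2 ^ Fintype.card α := by
  have h1 : (univ.filter (fun I : Finset α => ¬ (a ∈ I ↔ b ∈ I))).card =
      (univ.filter (fun I : Finset α => (a ∈ I ↔ b ∈ I))).card := by
    refine Finset.card_bij' (fun I _ => symmDiff I {a}) (fun I _ => symmDiff I {a}) ?_ ?_ ?_ ?_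
    · intro I hI
      rw [mem_filter] at hI ⊢
      refine ⟨mem_univ _, ?_⟩
      have hb : b ∉ ({a} : Finset α) := by simpa using h.symm
      have := hI.2
      simp only [mem_symmDiff, mem_singleton, true_and, not_true_eq_false, and_false, false_or,
        hb, h.symm, not_false_eq_true, and_true, or_false]
      tauto
    · intro I hI
      rw [mem_filter] at hI ⊢
      refine ⟨mem_univ _, ?_⟩
      have hb : b ∉ ({a} : Finset α) := by simpa using h.symm
      have := hI.2
      simp only [mem_symmDiff, mem_singleton, true_and, not_true_eq_false, and_false, false_or,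
        hb, h.symm, not_false_eq_true, and_true, or_false]
      tauto
    · intro I _; simp
    · intro I _; simp
  have h2 := Finset.card_filter_add_card_filter_not (s := (univ : Finset (Finset α)))
    (fun I => ¬ (a ∈ I ↔ b ∈ I))
  simp only [not_not] at h2
  rw [card_univ, Fintype.card_finset] at h2
  omega

variable {d : ℕ} [NeZero d]

theorem weight_eq (β : ZMod d → ℝ) {J I : Finset (ZMod d)} {π : Equiv.Perm (ZMod d)}
    (hI : ∀ j, j ∈ J ↔ π j ∈ I) :
    ∑ j ∈ J, ∑ i ∈ Jᶜ, β (π i - j) = ∑ l, β l * ((J.filter fun j => j + l ∉ I).card : ℝ) := by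
  have h1 : ∀ j, ∑ i ∈ Jᶜ, β (π i - j) = ∑ l, if j + l ∉ I then β l else 0 := by
    intro j
    rw [← Finset.sum_filter]
    refine Finset.sum_bij' (fun i _ => π i - j) (fun l _ => π.symm (j + l)) ?_ ?_ ?_ ?_ ?_
    · intro i hi
      rw [mem_filter]
      refine ⟨mem_univ _, ?_⟩
      rw [add_sub_cancel, ← hI]
      simpa using hi
    · intro l hl
      rw [mem_filter] at hl
      rw [mem_compl, hI, Equiv.apply_symm_apply]
      exact hl.2
    · intro i _; simp
    · intro l _; simp
    · intro i _; rfl
  simp only [h1]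
  rw [Finset.sum_comm]
  refine Finset.sum_congr rfl fun l _ => ?_
  rw [← Finset.sum_filter, Finset.sum_const, nsmul_eq_mul, mul_comm]

theorem concentrate {β : ZMod d → ℝ} (hβ : ∀ l, 0 ≤ β l) (h1 : ∑ l, β l ≤ 1) {h : ℝ}
    (h0 : 0 ≤ h) (h2 : 1 - 4 * h ≤ ∑ l, β l)
    (hI : ∀ I : Finset (ZMod d), ∃ (J : Finset (ZMod d)) (π : Equiv.Perm (ZMod d)),
      (∀ j, j ∈ J ↔ π j ∈ I) ∧ ∑ j ∈ J, ∑ i ∈ Jᶜ, β (π i - j) ≤ 2 * (d * h)) :
    ∃ l, 1 - 24 * h ≤ β l := by
  classical
  have hd : (0 : ℝ) < d := by exact_mod_cast NeZero.pos d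
  set X : Finset (ZMod d) → ZMod d → ZMod d → ℝ := fun I l l' =>
    ((univ.filter fun x : ZMod d => ¬ (x + l ∈ I ↔ x + l' ∈ I)).card : ℝ) with hX
  have hB0 : 0 ≤ ∑ l, β l := Finset.sum_nonneg fun l _ => hβ l
  -- for every `I`
  have hP : ∀ I, ∑ l, ∑ l', β l * β l' * X I l l' ≤ 8 * (d * h) := by
    intro I
    obtain ⟨J, π, hJ, hw⟩ := hI I
    rw [weight_eq β hJ] at hw
    set D : ZMod d → ℝ := fun l => ((univ.filter fun x : ZMod d => ¬ (x ∈ J ↔ x + l ∈ I)).card : ℝ)
      with hD
    have hcard : J.card = I.card := by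
      rw [← Finset.card_image_of_injective J π.injective]
      congr 1
      ext x
      rw [mem_image]
      constructor
      · rintro ⟨j, hj, rfl⟩; exact (hJ j).1 hj
      · intro hx; exact ⟨π.symm x, (hJ _).2 (by simpa using hx), by simp⟩
    have hDe : ∀ l, D l = 2 * ((J.filter fun j => j + l ∉ I).card : ℝ) := by
      intro l
      have e1 : (univ.filter fun x : ZMod d => ¬ (x ∈ J ↔ x + l ∈ I)).card =
          (J.filter fun j => j + l ∉ I).card + (univ.filter fun x => x ∉ J ∧ x + l ∈ I).card := by
        rw [← Finset.card_union_of_disjoint]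
        · congr 1
          ext x
          simp only [mem_filter, mem_univ, true_and, mem_union]
          tauto
        · rw [Finset.disjoint_left]
          intro x hx hx'
          rw [mem_filter] at hx hx'
          exact hx'.2.1 hx.1
      have e2 : (J.filter fun j => j + l ∉ I).card + (J.filter fun j => j + l ∈ I).card = J.card := by
        rw [add_comm]
        exact Finset.card_filter_add_card_filter_not (s := J) (fun j => j + l ∈ I)
      have e3 : (univ.filter fun x : ZMod d => x ∉ J ∧ x + l ∈ I).card +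
          (J.filter fun j => j + l ∈ I).card = I.card := by
        rw [← Finset.card_union_of_disjoint]
        · refine Finset.card_bij (fun x _ => x + l) ?_ ?_ ?_
          · intro x hx
            simp only [mem_filter, mem_univ, true_and, mem_union] at hx
            tauto
          · intro x _ y _ hxy; exact add_right_cancel hxy
          · intro y hy
            refine ⟨y - l, ?_, by simp⟩
            simp only [mem_filter, mem_univ, true_and, mem_union, sub_add_cancel]
            tauto
        · rw [Finset.disjoint_left]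
          intro x hx hx'
          rw [mem_filter] at hx hx'
          exact hx.2.1 hx'.1
      have e4 : (univ.filter fun x : ZMod d => ¬ (x ∈ J ↔ x + l ∈ I)).card =
          2 * (J.filter fun j => j + l ∉ I).card := by omega
      simp only [hD]
      rw [e4]
      push_cast
      ring
    have htri : ∀ l l', X I l l' ≤ D l + D l' := by
      intro l l'
      simp only [hX, hD]
      have : (univ.filter fun x : ZMod d => ¬ (x + l ∈ I ↔ x + l' ∈ I)).card ≤
          (univ.filter fun x : ZMod d => ¬ (x ∈ J ↔ x + l ∈ I)).card +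
          (univ.filter fun x : ZMod d => ¬ (x ∈ J ↔ x + l' ∈ I)).card := by
        refine le_trans (Finset.card_le_card ?_) (Finset.card_union_le _ _)
        intro x hx
        simp only [mem_filter, mem_univ, true_and, mem_union] at hx ⊢
        tauto
      exact_mod_cast this
    have hDw : ∑ l, β l * D l ≤ 4 * (d * h) := by
      have : ∑ l, β l * D l = 2 * ∑ l, β l * ((J.filter fun j => j + l ∉ I).card : ℝ) := by
        rw [Finset.mul_sum]
        refine Finset.sum_congr rfl fun l _ => ?_
        rw [hDe]; ring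
      rw [this]; linarith
    have hD0 : 0 ≤ ∑ l, β l * D l := Finset.sum_nonneg fun l _ => mul_nonneg (hβ l) (by
      simp only [hD]; positivity)
    calc ∑ l, ∑ l', β l * β l' * X I l l' ≤ ∑ l, ∑ l', β l * β l' * (D l + D l') := by
          refine Finset.sum_le_sum fun l _ => Finset.sum_le_sum fun l' _ => ?_
          exact mul_le_mul_of_nonneg_left (htri l l') (mul_nonneg (hβ l) (hβ l'))
      _ = 2 * (∑ l, β l) * ∑ l, β l * D l := by
          have e1 : ∀ l l', β l * β l' * (D l + D l') = (β l * D l) * β l' + β l * (β l' * D l') :=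
            fun l l' => by ring
          simp only [e1, Finset.sum_add_distrib]
          rw [← Finset.sum_mul_sum, ← Finset.sum_mul_sum]
          ring
      _ ≤ 8 * (d * h) := by nlinarith
  -- sum over all `I`
  have hsum : ∀ l l' : ZMod d, l ≠ l' → ∑ I, X I l l' = d * 2 ^ d / 2 := by
    intro l l' hll
    have e1 : ∀ I, X I l l' = ∑ x : ZMod d, if ¬ (x + l ∈ I ↔ x + l' ∈ I) then (1 : ℝ) else 0 := by
      intro I
      simp only [hX]
      rw [Finset.card_filter]
      push_cast
      rfl
    simp only [e1]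
    rw [Finset.sum_comm]
    have e2 : ∀ x : ZMod d, ∑ I : Finset (ZMod d),
        (if ¬ (x + l ∈ I ↔ x + l' ∈ I) then (1 : ℝ) else 0) = 2 ^ d / 2 := by
      intro x
      have h3 := card_xor (a := x + l) (b := x + l') (fun h => hll (add_left_cancel h))
      rw [ZMod.card] at h3
      have h4 : (2 : ℝ) * ((univ.filter (fun I : Finset (ZMod d) =>
          ¬ (x + l ∈ I ↔ x + l' ∈ I))).card : ℝ) = 2 ^ d := by exact_mod_cast h3
      rw [Finset.card_filter] at h4
      push_cast at h4
      linarith
    simp only [e2]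
    simp [ZMod.card]
    ring
  have htot : ∑ I : Finset (ZMod d), ∑ l, ∑ l', β l * β l' * X I l l' ≤ 2 ^ d * (8 * (d * h)) := by
    calc _ ≤ ∑ _I : Finset (ZMod d), 8 * (d * h) := Finset.sum_le_sum fun I _ => hP I
      _ = _ := by
        rw [Finset.sum_const, card_univ, Fintype.card_finset, ZMod.card, nsmul_eq_mul]
        push_cast
        rfl
  have hswap : ∑ I : Finset (ZMod d), ∑ l, ∑ l', β l * β l' * X I l l' =
      ∑ l, ∑ l', β l * β l' * ∑ I : Finset (ZMod d), X I l l' := by
    rw [Finset.sum_comm]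
    refine Finset.sum_congr rfl fun l _ => ?_
    rw [Finset.sum_comm]
    refine Finset.sum_congr rfl fun l' _ => ?_
    rw [Finset.mul_sum]
  have hXll : ∀ l, ∑ I : Finset (ZMod d), X I l l = 0 := by
    intro l
    refine Finset.sum_eq_zero fun I _ => ?_
    simp [hX]
  have hform : ∑ l, ∑ l', β l * β l' * ∑ I : Finset (ZMod d), X I l l' =
      (d * 2 ^ d / 2) * ((∑ l, β l) ^ 2 - ∑ l, β l ^ 2) := by
    have e1 : ∀ l l', β l * β l' * ∑ I : Finset (ZMod d), X I l l' =
        (d * 2 ^ d / 2) * (β l * β l') - (if l = l' then (d * 2 ^ d / 2) * β l ^ 2 else 0) := by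
      intro l l'
      by_cases hll : l = l'
      · subst hll
        rw [hXll, if_pos rfl]; ring
      · rw [hsum l l' hll, if_neg hll]; ring
    simp only [e1, Finset.sum_sub_distrib, Finset.sum_ite_eq, mem_univ, if_true]
    rw [← Finset.mul_sum]
    simp only [← Finset.mul_sum]
    rw [sq (∑ l, β l), Finset.sum_mul]
    ring
  rw [hswap, hform] at htot
  have h2d : (0 : ℝ) < 2 ^ d := by positivity
  have hkey : (∑ l, β l) ^ 2 - ∑ l, β l ^ 2 ≤ 16 * h := by
    have h3 : (d * 2 ^ d : ℝ) * ((∑ l, β l) ^ 2 - ∑ l, β l ^ 2) ≤ (d * 2 ^ d) * (16 * h) := by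
      nlinarith
    exact le_of_mul_le_mul_left h3 (by positivity)
  -- the maximum
  obtain ⟨m, -, hm⟩ := Finset.exists_max_image (univ : Finset (ZMod d)) β ⟨0, mem_univ _⟩
  refine ⟨m, ?_⟩
  have hsq : ∑ l, β l ^ 2 ≤ β m := by
    calc ∑ l, β l ^ 2 ≤ ∑ l, β m * β l := by
          refine Finset.sum_le_sum fun l _ => ?_
          have := hm l (mem_univ l)
          nlinarith [hβ l]
      _ = β m * ∑ l, β l := by rw [Finset.mul_sum]
      _ ≤ β m * 1 := mul_le_mul_of_nonneg_left h1 (hβ m)
      _ = β m := mul_one _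
  by_cases h4 : 0 ≤ 1 - 4 * h
  · nlinarith
  · have := hβ m
    linarith

end RR
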