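import Mathlib

/-!
Exchange lemma: unit vectors and columns of an invertible matrix.
-/

namespace RR

open Finset Matrix
open Submodule (span subset_span span_le)

variable {K : Type*} [Field K] {n : Type*} [Fintype n] [DecidableEq n]

/-- the columns `A_j`, `j ∈ J`, and the unit vectors `e_{π j}`, `j ∉ J` -/
def XA (A : Matrix n n K) (J : Finset n) (π : Equiv.Perm n) : Matrix n n K :=
  Matrix.of fun i j => if j ∈ J then A i j else if i = π j then 1 else 0

theorem exchange {A : Matrix n n K} (hA : A.det ≠ 0) (I W : Finset n)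
    (hW : ∀ y : n → K, (∀ j ∉ W, y j = 0) → (∀ i ∈ I, (A *ᵥ y) i = 0) → y = 0) :
    ∃ (J : Finset n) (π : Equiv.Perm n), W ⊆ J ∧ (∀ j, j ∈ J ↔ π j ∈ I) ∧ (XA A J π).det ≠ 0 := by
  classical
  set v : n ⊕ n → (n → K) := Sum.elim (fun i => Pi.single i 1) (fun j i => A i j) with hv
  set s : Set (n ⊕ n) := {x | (∃ i, i ∉ I ∧ x = Sum.inl i) ∨ ∃ j, j ∈ W ∧ x = Sum.inr j} with hs
  set t : Set (n ⊕ n) := {x | (∃ i, i ∉ I ∧ x = Sum.inl i) ∨ ∃ j, x = Sum.inr j} with ht
  have hst : s ⊆ t := by
    rintro x (h | ⟨j, _, h⟩)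
    · exact Or.inl h
    · exact Or.inr ⟨j, h⟩
  have hcomb : ∀ l : n ⊕ n →₀ K, ∀ i, Finsupp.linearCombination K v l i =
      l (Sum.inl i) + (A *ᵥ fun j => l (Sum.inr j)) i := by
    intro l i
    rw [Finsupp.linearCombination_apply, Finsupp.sum_fintype _ _ (fun x => by simp),
      Fintype.sum_sum_type, Pi.add_apply, Finset.sum_apply, Finset.sum_apply]
    congr 1
    · simp [hv, Pi.single_apply]
    · simp [hv, Matrix.mulVec, dotProduct, mul_comm]
  have hli : LinearIndepOn K v s := by
    rw [linearIndepOn_iff]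
    intro l hl h0
    rw [Finsupp.mem_supported'] at hl
    have h1 : ∀ i ∈ I, l (Sum.inl i) = 0 := by
      intro i hi
      apply hl
      rintro (⟨i', hi', h⟩ | ⟨j, _, h⟩)
      · rw [Sum.inl.injEq] at h; exact hi' (h ▸ hi)
      · exact absurd h (by simp)
    have h2 : ∀ j ∉ W, l (Sum.inr j) = 0 := by
      intro j hj
      apply hl
      rintro (⟨i', hi', h⟩ | ⟨j', hj', h⟩)
      · exact absurd h (by simp)
      · rw [Sum.inr.injEq] at h; exact hj (h ▸ hj')
    have h3 : ∀ i, l (Sum.inl i) + (A *ᵥ fun j => l (Sum.inr j)) i = 0 := by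
      intro i
      rw [← hcomb, h0]; rfl
    have h4 : (fun j => l (Sum.inr j)) = 0 := by
      apply hW _ h2
      intro i hi
      have := h3 i
      rwa [h1 i hi, zero_add] at this
    ext x
    rcases x with i | j
    · have := h3 i
      rw [h4, Matrix.mulVec_zero] at this
      simpa using this
    · exact congrFun h4 j
  obtain ⟨b, hbt, hsb, hspan, hlb⟩ := exists_linearIndepOn_extension hli hst
  -- `b` is a basis
  have htop : span K (v '' b) = ⊤ := by
    rw [eq_top_iff]
    have h1 : span K (v '' t) ≤ span K (v '' b) := span_le.2 hspan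
    refine le_trans ?_ h1
    intro w _
    have h2 : w = A *ᵥ (A⁻¹ *ᵥ w) := by
      rw [Matrix.mulVec_mulVec, Matrix.mul_nonsing_inv A (isUnit_iff_ne_zero.2 hA),
        Matrix.one_mulVec]
    rw [h2]
    have h3 : A *ᵥ (A⁻¹ *ᵥ w) = ∑ j, (A⁻¹ *ᵥ w) j • v (Sum.inr j) := by
      ext i
      simp [hv, Matrix.mulVec, dotProduct, mul_comm, Finset.sum_apply]
    rw [h3]
    refine Submodule.sum_mem _ fun j _ => Submodule.smul_mem _ _ (subset_span ?_)
    exact ⟨Sum.inr j, Or.inr ⟨j, rfl⟩, rfl⟩
  have hcard : Fintype.card b = Fintype.card n := by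
    have h1 : LinearIndependent K (fun x : b => v x) := hlb
    have h2 : ⊤ ≤ span K (Set.range (fun x : b => v x)) := by
      have : Set.range (fun x : b => v x) = v '' b := by
        ext w; simp
      rw [this, htop]
    have h3 := Module.finrank_eq_card_basis (Module.Basis.mk h1 h2)
    rw [Module.finrank_fintype_fun_eq_card] at h3
    exact h3.symm
  set J : Finset n := univ.filter fun j => Sum.inr j ∈ b with hJ
  have hWJ : W ⊆ J := by
    intro j hj
    rw [hJ, mem_filter]
    exact ⟨mem_univ _, hsb (Or.inr ⟨j, hj, rfl⟩)⟩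
  have hinl : ∀ i, Sum.inl i ∈ b ↔ i ∉ I := by
    intro i
    constructor
    · intro h
      rcases hbt h with ⟨i', hi', h⟩ | ⟨j, h⟩
      · rw [Sum.inl.injEq] at h; rwa [h]
      · exact absurd h (by simp)
    · intro h
      exact hsb (Or.inl ⟨i, h, rfl⟩)
  have hJc : J.card = I.card := by
    have h1 : (b.toFinset).card = Iᶜ.card + J.card := by
      have h2 : b.toFinset = (Iᶜ).map ⟨Sum.inl, Sum.inl_injective⟩ ∪
          J.map ⟨Sum.inr, Sum.inr_injective⟩ := by
        ext x
        simp only [Set.mem_toFinset, mem_union, Finset.mem_map, mem_compl,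
          Function.Embedding.coeFn_mk]
        rcases x with i | j
        · rw [hinl]
          simp
        · simp [hJ]
      rw [h2, Finset.card_union_of_disjoint, card_map, card_map]
      rw [Finset.disjoint_left]
      intro x hx hx'
      simp only [Finset.mem_map, Function.Embedding.coeFn_mk] at hx hx'
      obtain ⟨i, _, rfl⟩ := hx
      obtain ⟨j, _, h⟩ := hx'
      exact absurd h (by simp)
    rw [Set.toFinset_card, hcard, card_compl] at h1
    have := card_le_univ I
    omega
  -- the permutation
  obtain ⟨e⟩ : Nonempty (J ≃ I) := ⟨Finset.equivOfCardEq hJc⟩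
  set π : Equiv.Perm n := e.extendSubtype with hπ
  have hπJ : ∀ j, j ∈ J ↔ π j ∈ I := by
    intro j
    constructor
    · intro hj; exact e.extendSubtype_mem j hj
    · intro h
      by_contra hj
      exact e.extendSubtype_not_mem j hj h
  refine ⟨J, π, hWJ, hπJ, ?_⟩
  -- the columns are independent
  set c : n → b := fun j => if h : j ∈ J then ⟨Sum.inr j, by
      rw [hJ, mem_filter] at h; exact h.2⟩
    else ⟨Sum.inl (π j), by rw [hinl, ← hπJ]; exact h⟩ with hc
  have hcinj : Function.Injective c := by
    intro j j' h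
    simp only [hc] at h
    split_ifs at h with h1 h2 h2
    · simpa using congrArg Subtype.val h
    · exact absurd (congrArg Subtype.val h) (by simp)
    · exact absurd (congrArg Subtype.val h) (by simp)
    · have := congrArg Subtype.val h
      simpa using this
  have hcols : LinearIndependent K (XA A J π).col := by
    have h1 : LinearIndependent K (fun x : b => v x) := hlb
    have h2 := h1.comp c hcinj
    convert h2 using 1
    ext j i
    simp only [Matrix.col_apply, XA, Matrix.of_apply, Function.comp_apply, hc]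
    split_ifs with h3 h4
    · simp [hv]
    · simp [hv, h4]
    · simp [hv, Pi.single_apply, h4]
  rw [Matrix.linearIndependent_cols_iff_isUnit, Matrix.isUnit_iff_isUnit_det] at hcols
  exact hcols.ne_zero

end RR
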