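import Pool.Agent.Lib_helper72.RR.Had

/-!
Circulant matrices and the Fourier matrix.
-/

namespace RR

open Matrix Finset

variable {d : ℕ} [NeZero d]

/-- orthogonality of the characters `k ↦ ψ (k x)` -/
def Orth {R : Type*} [CommRing R] (ψ : AddChar (ZMod d) R) : Prop :=
  ∀ x : ZMod d, x ≠ 0 → ∑ k, ψ (k * x) = 0

/-- the values `b_k = ∑ a_l ψ (k l)` -/
def bk {R : Type*} [CommRing R] (ψ : AddChar (ZMod d) R) (a : ZMod d → R) (k : ZMod d) : R :=
  ∑ l, a l * ψ (k * l)

/-- the Fourier matrix -/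
def FM {R : Type*} [CommRing R] (ψ : AddChar (ZMod d) R) : Matrix (ZMod d) (ZMod d) R :=
  Matrix.of fun k i => ψ (k * i)

/-- the conjugate Fourier matrix -/
def FM' {R : Type*} [CommRing R] (ψ : AddChar (ZMod d) R) : Matrix (ZMod d) (ZMod d) R :=
  Matrix.of fun i k => ψ (-(k * i))

/-- the matrix with the columns `C_j`, `j ∈ J`, of the circulant `C = (a (i - j))`, and the unit
vectors `e_{π j}`, `j ∉ J` -/
def XM {R : Type*} [CommRing R] (a : ZMod d → R) (J : Finset (ZMod d))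
    (π : Equiv.Perm (ZMod d)) : Matrix (ZMod d) (ZMod d) R :=
  Matrix.of fun i j => if j ∈ J then a (i - j) else if i = π j then 1 else 0

section ring

variable {R : Type*} [CommRing R]

theorem bk_zero (ψ : AddChar (ZMod d) R) (a : ZMod d → R) : bk ψ a 0 = ∑ l, a l := by
  unfold bk
  simp

theorem FM_mul_XM (ψ : AddChar (ZMod d) R) (a : ZMod d → R) (J : Finset (ZMod d))
    (π : Equiv.Perm (ZMod d)) (k j : ZMod d) :
    (FM ψ * XM a J π) k j = if j ∈ J then bk ψ a k * ψ (k * j) else ψ (k * π j) := by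
  rw [Matrix.mul_apply]
  simp only [FM, XM, Matrix.of_apply]
  split_ifs with hj
  · unfold bk
    rw [← Equiv.sum_comp (Equiv.addRight j), Finset.sum_mul]
    refine Finset.sum_congr rfl fun l _ => ?_
    simp only [Equiv.coe_addRight, add_sub_cancel_right, mul_add, AddChar.map_add_eq_mul]
    ring
  · simp

theorem sum_orth {ψ : AddChar (ZMod d) R} (ho : Orth ψ) (x : ZMod d) :
    ∑ k, ψ (k * x) = if x = 0 then (d : R) else 0 := by
  split_ifs with h
  · subst h
    simp [ZMod.card]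
  · exact ho x h

theorem FM_mul_FM' {ψ : AddChar (ZMod d) R} (ho : Orth ψ) : FM' ψ * FM ψ = (d : R) • 1 := by
  ext i j
  rw [Matrix.mul_apply]
  simp only [FM, FM', Matrix.of_apply, Matrix.smul_apply, smul_eq_mul]
  have h1 : ∀ k : ZMod d, ψ (-(k * i)) * ψ (k * j) = ψ (k * (j - i)) := by
    intro k
    rw [← AddChar.map_add_eq_mul]
    congr 1; ring
  simp only [h1]
  rw [sum_orth ho, Matrix.one_apply]
  by_cases hij : i = j
  · subst hij; simp
  · have : j - i ≠ 0 := fun h => hij (sub_eq_zero.1 h).symm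
    simp [hij, this]

theorem det_FM' {ψ : AddChar (ZMod d) R} (ho : Orth ψ) :
    (FM' ψ).det * (FM ψ).det = (d : R) ^ d := by
  rw [← Matrix.det_mul, FM_mul_FM' ho, Matrix.det_smul, Matrix.det_one, mul_one, ZMod.card]

theorem Orth.map {S : Type*} [CommRing S] {ψ : AddChar (ZMod d) R} (ho : Orth ψ) (f : R →+* S) :
    Orth ((f : R →* S).compAddChar ψ) := by
  intro x hx
  have := congrArg f (ho x hx)
  rw [map_sum, map_zero] at this
  exact this

theorem bk_map {S : Type*} [CommRing S] (ψ : AddChar (ZMod d) R) (f : R →+* S) (a : ZMod d → R)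
    (k : ZMod d) : bk ((f : R →* S).compAddChar ψ) (fun l => f (a l)) k = f (bk ψ a k) := by
  unfold bk
  rw [map_sum]
  refine Finset.sum_congr rfl fun l _ => ?_
  rw [map_mul f]
  rfl

theorem XM_map {S : Type*} [CommRing S] (f : R →+* S) (a : ZMod d → R) (J : Finset (ZMod d))
    (π : Equiv.Perm (ZMod d)) :
    (XM (fun l => f (a l)) J π).det = f (XM a J π).det := by
  rw [RingHom.map_det]
  congr 1
  ext i j
  simp only [XM, Matrix.of_apply, RingHom.mapMatrix_apply, Matrix.map_apply]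
  split_ifs <;> simp

end ring

/-! ### the archimedean bound -/

/-- the absolute value of `b_k / max (1, |b_k|)²`, transformed -/
noncomputable def gam (ψ : AddChar (ZMod d) ℂ) (a : ZMod d → ℂ) (l : ZMod d) : ℂ :=
  (1 / (d : ℂ)) * ∑ k, (bk ψ a k / ((max 1 ‖bk ψ a k‖ : ℝ) : ℂ) ^ 2) * ψ (-(k * l))

/-- the weights -/
noncomputable def bet (ψ : AddChar (ZMod d) ℂ) (a : ZMod d → ℂ) (l : ZMod d) : ℝ :=
  ‖gam ψ a l‖ ^ 2

theorem plancherel {ψ : AddChar (ZMod d) ℂ} (ho : Orth ψ) (c : ZMod d → ℂ) :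
    ∑ k, ‖∑ i, c i * ψ (k * i)‖ ^ 2 = d * ∑ i, ‖c i‖ ^ 2 := by
  have h : ((∑ k, ‖∑ i, c i * ψ (k * i)‖ ^ 2 : ℝ) : ℂ) = ((d * ∑ i, ‖c i‖ ^ 2 : ℝ) : ℂ) := by
    push_cast
    have h1 : ∀ k : ZMod d, ((‖∑ i, c i * ψ (k * i)‖ : ℝ) : ℂ) ^ 2 =
        ∑ i, ∑ j, c i * (starRingEnd ℂ) (c j) * ψ (k * (i - j)) := by
      intro k
      have h2 : ((‖∑ i, c i * ψ (k * i)‖ : ℝ) : ℂ) ^ 2 = (∑ i, c i * ψ (k * i)) *
          (starRingEnd ℂ) (∑ i, c i * ψ (k * i)) := by
        rw [Complex.mul_conj, Complex.normSq_eq_norm_sq]; push_cast; rfl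
      rw [h2, map_sum (starRingEnd ℂ), Finset.sum_mul_sum]
      refine Finset.sum_congr rfl fun i _ => Finset.sum_congr rfl fun j _ => ?_
      rw [map_mul (starRingEnd ℂ), ← AddChar.map_neg_eq_conj, mul_sub, sub_eq_add_neg, AddChar.map_add_eq_mul]
      ring
    simp only [h1]
    rw [Finset.sum_comm, Finset.mul_sum]
    refine Finset.sum_congr rfl fun i _ => ?_
    rw [Finset.sum_comm]
    have h3 : ∀ j : ZMod d, ∑ k, c i * (starRingEnd ℂ) (c j) * ψ (k * (i - j)) =
        if j = i then c i * (starRingEnd ℂ) (c j) * d else 0 := by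
      intro j
      rw [← Finset.mul_sum, sum_orth ho]
      by_cases hij : j = i
      · subst hij; simp
      · have : i - j ≠ 0 := fun h => hij (sub_eq_zero.1 h).symm
        simp [hij, this]
    simp only [h3]
    rw [Finset.sum_ite_eq' Finset.univ i]
    simp only [Finset.mem_univ, if_true]
    rw [Complex.mul_conj, Complex.normSq_eq_norm_sq]
    push_cast
    ring
  exact_mod_cast h

theorem one_le_m (b : ℂ) : (1 : ℝ) ≤ max 1 ‖b‖ := le_max_left _ _

theorem det_unip {J : Finset (ZMod d)} (G : ZMod d → ZMod d → ℂ) :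
    (Matrix.of fun i j : ZMod d => (if i = j then 1 else 0) -
      if i ∉ J ∧ j ∈ J then G i j else 0 : Matrix (ZMod d) (ZMod d) ℂ).det = 1 := by
  set S : Matrix (ZMod d) (ZMod d) ℂ := Matrix.of fun i j : ZMod d => (if i = j then 1 else 0) -
      if i ∉ J ∧ j ∈ J then G i j else 0 with hS
  rw [Matrix.twoBlockTriangular_det S (fun i => i ∉ J)]
  · have h1 : S.toSquareBlockProp (fun i => i ∉ J) = 1 := by
      ext ⟨i, hi⟩ ⟨j, hj⟩
      simp only [Matrix.toSquareBlockProp_def, hS, Matrix.of_apply, Matrix.one_apply,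
        Subtype.mk.injEq]
      simp [hj]
    have h2 : S.toSquareBlockProp (fun i => ¬ i ∉ J) = 1 := by
      ext ⟨i, hi⟩ ⟨j, hj⟩
      simp only [Matrix.toSquareBlockProp_def, hS, Matrix.of_apply, Matrix.one_apply,
        Subtype.mk.injEq]
      simp [hi]
    rw [h1, h2, Matrix.det_one, Matrix.det_one, one_mul]
  · intro i hi j hj
    simp only [not_not] at hi
    simp only [hS, Matrix.of_apply]
    have hij : i ≠ j := by rintro rfl; exact hj hi
    simp [hij, hi]

/-- the archimedean determinant inequality -/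
theorem arch {ψ : AddChar (ZMod d) ℂ} (ho : Orth ψ) (a : ZMod d → ℂ) (J : Finset (ZMod d))
    (π : Equiv.Perm (ZMod d)) :
    ‖(XM a J π).det‖ ^ 2 ≤ (∏ k, max 1 ‖bk ψ a k‖) ^ 2 *
      Real.exp (-(∑ j ∈ J, ∑ i ∈ Jᶜ, bet ψ a (π i - j))) := by
  have hd : (0 : ℝ) < d := by exact_mod_cast NeZero.pos d
  have hdc : (d : ℂ) ≠ 0 := by exact_mod_cast hd.ne'
  set b := bk ψ a with hb
  set m : ZMod d → ℝ := fun k => max 1 ‖b k‖ with hm
  have hm1 : ∀ k, 1 ≤ m k := fun k => le_max_left _ _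
  have hmb : ∀ k, ‖b k‖ ≤ m k := fun k => le_max_right _ _
  have hmp : ∀ k, 0 < m k := fun k => lt_of_lt_of_le one_pos (hm1 k)
  have hmc : ∀ k, ((m k : ℝ) : ℂ) ≠ 0 := fun k => by exact_mod_cast (hmp k).ne'
  have hψ : ∀ x : ZMod d, ‖ψ x‖ = 1 := fun x => AddChar.norm_apply ψ x
  -- the normalised matrix
  set N : Matrix (ZMod d) (ZMod d) ℂ := Matrix.of fun k j =>
    (if j ∈ J then b k * ψ (k * j) else ψ (k * π j)) / ((m k : ℝ) : ℂ) with hN
  have h1 : FM ψ * XM a J π = Matrix.diagonal (fun k => ((m k : ℝ) : ℂ)) * N := by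
    ext k j
    rw [FM_mul_XM, Matrix.diagonal_mul]
    simp only [hN, Matrix.of_apply]
    rw [mul_div_cancel₀ _ (hmc k)]
  set G : ZMod d → ZMod d → ℂ := fun i j => gam ψ a (π i - j) with hG
  set S : Matrix (ZMod d) (ZMod d) ℂ := Matrix.of fun i j : ZMod d => (if i = j then 1 else 0) -
      if i ∉ J ∧ j ∈ J then G i j else 0 with hS
  have hdS : S.det = 1 := det_unip G
  set Y := N * S with hY
  have hdY : Y.det = N.det := by rw [hY, Matrix.det_mul, hdS, mul_one]
  -- columns outside `J`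
  have hc1 : ∀ j ∉ J, ∀ k, Y k j = ψ (k * π j) / ((m k : ℝ) : ℂ) := by
    intro j hj k
    rw [hY, Matrix.mul_apply]
    simp only [hS, Matrix.of_apply, hj, and_false, if_false, sub_zero]
    rw [Finset.sum_eq_single j]
    · simp [hN, hj]
    · intro i _ hij; simp [hij]
    · simp
  have hc2 : ∀ j ∈ J, ∀ k, Y k j = (b k * ψ (k * j) -
      ∑ i ∈ Jᶜ, G i j * ψ (k * π i)) / ((m k : ℝ) : ℂ) := by
    intro j hj k
    rw [hY, Matrix.mul_apply]
    simp only [hS, Matrix.of_apply, hj, and_true, mul_sub]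
    rw [Finset.sum_sub_distrib, sub_div]
    congr 1
    · rw [Finset.sum_eq_single j]
      · simp [hN, hj]
      · intro i _ hij; simp [hij]
      · simp
    · rw [Finset.sum_div, ← Finset.sum_filter_add_sum_filter_not univ (fun i => i ∉ J)]
      have e1 : (univ.filter fun i : ZMod d => i ∉ J) = Jᶜ := by ext; simp
      rw [e1, Finset.sum_eq_zero (s := univ.filter fun i : ZMod d => ¬ i ∉ J)]
      · rw [add_zero]
        refine Finset.sum_congr rfl fun i hi => ?_
        have hi' : i ∉ J := by simpa using hi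
        simp only [hN, Matrix.of_apply, hi', if_false, not_false_eq_true, if_true]
        ring
      · intro i hi
        have hi' : i ∈ J := by simpa using hi
        simp [hi']
  have hn1 : ∀ j ∉ J, ∑ k, ‖Y k j‖ ^ 2 ≤ d := by
    intro j hj
    calc ∑ k, ‖Y k j‖ ^ 2 ≤ ∑ _k : ZMod d, (1 : ℝ) := by
          refine Finset.sum_le_sum fun k _ => ?_
          rw [hc1 j hj k, norm_div, hψ, Complex.norm_real, Real.norm_of_nonneg (hmp k).le]
          have := hm1 k
          rw [div_pow, one_pow, div_le_one (by positivity)]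
          exact one_le_pow₀ this
      _ = d := by simp [ZMod.card]
  have hn2 : ∀ j ∈ J, ∑ k, ‖Y k j‖ ^ 2 ≤ d - d * ∑ i ∈ Jᶜ, bet ψ a (π i - j) := by
    intro j hj
    set H : ZMod d → ℂ := fun k => ∑ i ∈ Jᶜ, G i j * ψ (k * π i) with hH
    -- Plancherel for `H`
    have hpl : ∑ k, ‖H k‖ ^ 2 = d * ∑ i ∈ Jᶜ, bet ψ a (π i - j) := by
      have h2 := plancherel ho (fun x => if π.symm x ∈ Jᶜ then G (π.symm x) j else 0)
      have e1 : ∀ k, ∑ i, (if π.symm i ∈ Jᶜ then G (π.symm i) j else 0) * ψ (k * i) = H k := by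
        intro k
        rw [← Equiv.sum_comp π]
        simp only [Equiv.symm_apply_apply, ite_mul, zero_mul]
        rw [← Finset.sum_filter]
        simp only [hH]
        refine Finset.sum_congr ?_ fun _ _ => rfl
        ext; simp
      simp only [e1] at h2
      rw [h2]
      congr 1
      rw [← Equiv.sum_comp π]
      simp only [Equiv.symm_apply_apply]
      rw [← Finset.sum_filter_add_sum_filter_not univ (fun i => i ∈ Jᶜ)]
      have e2 : (univ.filter fun i : ZMod d => i ∈ Jᶜ) = Jᶜ := by ext; simp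
      rw [e2, Finset.sum_eq_zero (s := univ.filter fun i : ZMod d => ¬ i ∈ Jᶜ), add_zero]
      · refine Finset.sum_congr rfl fun i hi => ?_
        rw [if_pos hi]
        rfl
      · intro i hi
        have hi' : i ∉ Jᶜ := (Finset.mem_filter.1 hi).2
        rw [if_neg hi']; simp
    -- the mixed term
    have hmix : ∑ k, ((starRingEnd ℂ) (H k) * (b k * ψ (k * j)) / ((m k : ℝ) : ℂ) ^ 2).re =
        d * ∑ i ∈ Jᶜ, bet ψ a (π i - j) := by
      rw [← Complex.re_sum]
      have e1 : ∀ k, (starRingEnd ℂ) (H k) * (b k * ψ (k * j)) / ((m k : ℝ) : ℂ) ^ 2 =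
          ∑ i ∈ Jᶜ, (starRingEnd ℂ) (G i j) *
            ((b k / ((m k : ℝ) : ℂ) ^ 2) * ψ (-(k * (π i - j)))) := by
        intro k
        simp only [hH]
        rw [map_sum (starRingEnd ℂ), Finset.sum_mul, Finset.sum_div]
        refine Finset.sum_congr rfl fun i _ => ?_
        have : ψ (-(k * (π i - j))) = ψ (-(k * π i)) * ψ (k * j) := by
          rw [← AddChar.map_add_eq_mul]; congr 1; ring
        rw [map_mul (starRingEnd ℂ), ← AddChar.map_neg_eq_conj, this]
        ring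
      simp only [e1]
      rw [Finset.sum_comm]
      have e2 : ∀ i, ∑ k, (starRingEnd ℂ) (G i j) *
            ((b k / ((m k : ℝ) : ℂ) ^ 2) * ψ (-(k * (π i - j)))) =
            ((d * bet ψ a (π i - j) : ℝ) : ℂ) := by
        intro i
        rw [← Finset.mul_sum]
        have e3 : ∑ k, (b k / ((m k : ℝ) : ℂ) ^ 2) * ψ (-(k * (π i - j))) = d * G i j := by
          simp only [hG, gam]
          rw [← mul_assoc, mul_one_div_cancel hdc, one_mul]
        rw [e3]
        have e4 : (starRingEnd ℂ) (G i j) * (d * G i j) = d * (G i j * (starRingEnd ℂ) (G i j)) := by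
          ring
        rw [e4, Complex.mul_conj, Complex.normSq_eq_norm_sq, Complex.ofReal_mul]
        rfl
      simp only [e2]
      rw [Complex.re_sum, Finset.mul_sum]
      simp only [Complex.ofReal_re]
    have hterm : ∀ k, ‖Y k j‖ ^ 2 ≤ 1 + ‖H k‖ ^ 2 -
        2 * ((starRingEnd ℂ) (H k) * (b k * ψ (k * j)) / ((m k : ℝ) : ℂ) ^ 2).re := by
      intro k
      rw [hc2 j hj k]
      change ‖(b k * ψ (k * j) - H k) / ((m k : ℝ) : ℂ)‖ ^ 2 ≤ _
      have e1 : ((starRingEnd ℂ) (H k) * (b k * ψ (k * j)) / ((m k : ℝ) : ℂ) ^ 2).re =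
          ((starRingEnd ℂ) (H k) * (b k * ψ (k * j))).re / (m k) ^ 2 := by
        rw [← Complex.ofReal_pow, Complex.div_ofReal_re]
      rw [e1, norm_div, Complex.norm_real, Real.norm_of_nonneg (hmp k).le, div_pow]
      have e2 : ‖b k * ψ (k * j) - H k‖ ^ 2 = ‖b k‖ ^ 2 + ‖H k‖ ^ 2 -
          2 * ((starRingEnd ℂ) (H k) * (b k * ψ (k * j))).re := by
        have := Complex.normSq_sub (b k * ψ (k * j)) (H k)
        rw [Complex.normSq_eq_norm_sq, Complex.normSq_eq_norm_sq, Complex.normSq_eq_norm_sq] at this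
        rw [this, norm_mul, hψ, mul_one, mul_comm (b k * ψ (k * j))]
      rw [e2]
      have h3 : 0 < m k ^ 2 := by have := hmp k; positivity
      have h4 : ‖b k‖ ^ 2 ≤ m k ^ 2 := by
        have := hmb k
        gcongr
      have h5 : 1 ≤ m k ^ 2 := one_le_pow₀ (hm1 k)
      rw [div_le_iff₀ h3]
      have h6 : (1 + ‖H k‖ ^ 2 - 2 * (((starRingEnd ℂ) (H k) * (b k * ψ (k * j))).re / m k ^ 2)) *
          m k ^ 2 = m k ^ 2 + ‖H k‖ ^ 2 * m k ^ 2 -
            2 * ((starRingEnd ℂ) (H k) * (b k * ψ (k * j))).re := by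
        rw [sub_mul, add_mul, one_mul, mul_assoc 2, div_mul_cancel₀ _ h3.ne']
      rw [h6]
      nlinarith [sq_nonneg ‖H k‖]
    calc ∑ k, ‖Y k j‖ ^ 2 ≤ ∑ k, (1 + ‖H k‖ ^ 2 -
        2 * ((starRingEnd ℂ) (H k) * (b k * ψ (k * j)) / ((m k : ℝ) : ℂ) ^ 2).re) :=
          Finset.sum_le_sum fun k _ => hterm k
      _ = _ := by
          rw [Finset.sum_sub_distrib, Finset.sum_add_distrib, ← Finset.mul_sum, hpl, hmix]
          simp only [Finset.sum_const, Finset.card_univ, ZMod.card, nsmul_eq_mul, mul_one]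
          ring
  set T := ∑ j ∈ J, ∑ i ∈ Jᶜ, bet ψ a (π i - j) with hT
  have htot : ∑ k, ∑ j, ‖Y k j‖ ^ 2 ≤ d * d - d * T := by
    rw [Finset.sum_comm, ← Finset.sum_compl_add_sum J]
    have e1 : ∑ j ∈ Jᶜ, ∑ k, ‖Y k j‖ ^ 2 ≤ (Jᶜ.card : ℝ) * d := by
      rw [← nsmul_eq_mul]
      exact Finset.sum_le_card_nsmul _ _ _ fun j hj => hn1 j (by simpa using hj)
    have e2 : ∑ j ∈ J, ∑ k, ‖Y k j‖ ^ 2 ≤ (J.card : ℝ) * d - d * T := by
      calc ∑ j ∈ J, ∑ k, ‖Y k j‖ ^ 2 ≤ ∑ j ∈ J, (d - d * ∑ i ∈ Jᶜ, bet ψ a (π i - j)) :=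
            Finset.sum_le_sum hn2
        _ = _ := by
            rw [Finset.sum_sub_distrib, ← Finset.mul_sum, Finset.sum_const, nsmul_eq_mul]
    have e3 : (Jᶜ.card : ℝ) + J.card = d := by
      have := Finset.card_compl_add_card J
      rw [ZMod.card] at this
      exact_mod_cast this
    nlinarith
  have hdet := det_sq_le Y hd
  rw [hdY, ZMod.card] at hdet
  have hexp : Real.exp ((∑ k, ∑ j, ‖Y k j‖ ^ 2) / d - d) ≤ Real.exp (-T) := by
    rw [Real.exp_le_exp]
    have : (∑ k, ∑ j, ‖Y k j‖ ^ 2) / d ≤ d - T := by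
      rw [div_le_iff₀ hd]
      linarith
    linarith
  -- the Fourier matrix
  have hF : ‖(FM ψ).det‖ ^ 2 = (d : ℝ) ^ d := by
    have e1 : FM' ψ = (FM ψ)ᴴ := by
      ext i k
      simp only [FM, FM', Matrix.of_apply, Matrix.conjTranspose_apply]
      rw [AddChar.map_neg_eq_conj]
      rfl
    have e2 := det_FM' ho
    rw [e1, Matrix.det_conjTranspose, RCLike.star_def, mul_comm, Complex.mul_conj,
      Complex.normSq_eq_norm_sq] at e2
    exact_mod_cast e2
  have h2 := congrArg (fun M => ‖Matrix.det M‖ ^ 2) h1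
  simp only [Matrix.det_mul, norm_mul, mul_pow, Matrix.det_diagonal] at h2
  rw [hF, norm_prod] at h2
  have e3 : ∀ k, ‖((m k : ℝ) : ℂ)‖ = m k := fun k => by
    rw [Complex.norm_real, Real.norm_of_nonneg (hmp k).le]
  simp only [e3] at h2
  have hdd : (0 : ℝ) < (d : ℝ) ^ d := by positivity
  have h3 : (d : ℝ) ^ d * ‖(XM a J π).det‖ ^ 2 ≤ (d : ℝ) ^ d * ((∏ k, m k) ^ 2 * Real.exp (-T)) := by
    rw [h2]
    calc (∏ k, m k) ^ 2 * ‖N.det‖ ^ 2 ≤ (∏ k, m k) ^ 2 *
          ((d : ℝ) ^ d * Real.exp ((∑ k, ∑ j, ‖Y k j‖ ^ 2) / d - d)) := by gcongr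
      _ ≤ (∏ k, m k) ^ 2 * ((d : ℝ) ^ d * Real.exp (-T)) := by gcongr
      _ = _ := by ring
  exact le_of_mul_le_mul_left h3 hdd

end RR
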