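import Pool.Agent.Lib_helper72.RR.ThmA2
import Pool.Agent.Lib_helper24.MS.Final1

/-!
From Theorem A to the ring generated by the roots of unity and the roots of `α` and `α⁻¹`.
-/

namespace RR

open Finset Polynomial MS IntermediateField

universe u

variable {Ω : Type u} [Field Ω] [Algebra ℚ Ω]

/-- the elements of `M_S` which are integral at the primes in `T` -/
def OS (α : Ω) (S T : Set ℕ) : Subring Ω where
  carrier := {x | x ∈ MSF α S ∧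
    ∀ (l : ℕ) [Fact l.Prime], l ∈ T → ∀ τ : Ω →+* PadicAlgCl l, ‖τ x‖ ≤ 1}
  one_mem' := ⟨one_mem _, fun l _ _ τ => by rw [map_one, norm_one]⟩
  zero_mem' := ⟨zero_mem _, fun l _ _ τ => by rw [map_zero, norm_zero]; exact zero_le_one⟩
  mul_mem' := fun {a b} ha hb => ⟨mul_mem ha.1 hb.1, fun l _ hl τ => by
    rw [map_mul, norm_mul]
    exact mul_le_one₀ (ha.2 l hl τ) (norm_nonneg _) (hb.2 l hl τ)⟩
  add_mem' := fun {a b} ha hb => ⟨add_mem ha.1 hb.1, fun l _ hl τ => by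
    rw [map_add]
    exact (hna l _ _).trans (max_le (ha.2 l hl τ) (hb.2 l hl τ))⟩
  neg_mem' := fun {a} ha => ⟨neg_mem ha.1, fun l _ hl τ => by
    rw [map_neg, norm_neg]
    exact ha.2 l hl τ⟩

/-- `α` is a unit at the primes in `T` -/
def UnitAt (α : Ω) (T : Set ℕ) : Prop :=
  ∀ (l : ℕ) [Fact l.Prime], l ∈ T → ∀ τ : Ω →+* PadicAlgCl l, ‖τ α‖ = 1

omit [Algebra ℚ Ω] in
theorem norm_root {l : ℕ} [Fact l.Prime] {τ : Ω →+* PadicAlgCl l} {x y : Ω} {n : ℕ} (hn : 0 < n)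
    (h : y ^ n = x) (hx : ‖τ x‖ = 1) : ‖τ y‖ = 1 := by
  rw [← h, map_pow, norm_pow] at hx
  exact (pow_eq_one_iff_of_nonneg (norm_nonneg _) hn.ne').1 hx

theorem unity_mem_MSF {α ζ : Ω} {S : Set ℕ} {n : ℕ} (hn : 0 < n) (h : ζ ^ n = 1) :
    ζ ∈ MSF α S := subset_adjoin _ _ (Or.inl ⟨n, hn, h⟩)

theorem root_mem_MSF {α ρ : Ω} {S : Set ℕ} {n : ℕ} (hn : Smooth S n) (h : ρ ^ n = α) :
    ρ ∈ MSF α S := subset_adjoin _ _ (Or.inr ⟨n, hn, h⟩)

theorem alpha_mem_MSF {α : Ω} {S : Set ℕ} : α ∈ MSF α S :=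
  root_mem_MSF (smooth_one S) (pow_one α)

theorem unity_mem_OS {α ζ : Ω} {S T : Set ℕ} {n : ℕ} (hn : 0 < n) (h : ζ ^ n = 1) :
    ζ ∈ OS α S T :=
  ⟨unity_mem_MSF hn h, fun l _ _ τ => (norm_root hn h (by rw [map_one, norm_one])).le⟩

theorem root_zpow_mem_OS {α ρ : Ω} {S T : Set ℕ} (hU : UnitAt α T) {n : ℕ} (hn : Smooth S n)
    (h : ρ ^ n = α) (k : ℤ) : ρ ^ k ∈ OS α S T := by
  refine ⟨zpow_mem (root_mem_MSF hn h) k, fun l _ hl τ => ?_⟩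
  rw [map_zpow₀, norm_zpow, norm_root hn.1 h (hU l hl τ), one_zpow]

theorem alpha_inv_mem_OS {α : Ω} {S T : Set ℕ} (hU : UnitAt α T) : α⁻¹ ∈ OS α S T := by
  have := root_zpow_mem_OS hU (smooth_one S) (pow_one α) (-1)
  rwa [zpow_neg_one] at this

/-- prime to `S` -/
def CoP (S : Set ℕ) (n : ℕ) : Prop := 0 < n ∧ ∀ q : ℕ, q.Prime → q ∣ n → q ∉ S

theorem CoP.mul {S : Set ℕ} {a b : ℕ} (ha : CoP S a) (hb : CoP S b) : CoP S (a * b) :=
  ⟨Nat.mul_pos ha.1 hb.1, fun q hq h => by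
    rcases (hq.dvd_mul).1 h with h | h
    · exact ha.2 q hq h
    · exact hb.2 q hq h⟩

theorem coP_one (S : Set ℕ) : CoP S 1 :=
  ⟨one_pos, fun _ hq h => absurd (Nat.dvd_one.1 h) hq.one_lt.ne'⟩

theorem split (S : Set ℕ) (n : ℕ) : 0 < n → ∃ a b : ℕ, n = a * b ∧ Smooth S a ∧ CoP S b := by
  induction n using Nat.recOnMul with
  | zero => intro h; exact absurd h (lt_irrefl _)
  | one => intro _; exact ⟨1, 1, rfl, smooth_one S, coP_one S⟩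
  | prime p hp =>
    intro _
    by_cases h : p ∈ S
    · refine ⟨p, 1, (mul_one p).symm, ⟨hp.pos, fun q hq hqp => ?_⟩, coP_one S⟩
      rw [(Nat.prime_dvd_prime_iff_eq hq hp).1 hqp]
      exact h
    · refine ⟨1, p, (one_mul p).symm, smooth_one S, ⟨hp.pos, fun q hq hqp => ?_⟩⟩
      rw [(Nat.prime_dvd_prime_iff_eq hq hp).1 hqp]
      exact h
  | mul m n ihm ihn =>
    intro h
    have hm : 0 < m := Nat.pos_of_ne_zero fun h0 => by rw [h0, zero_mul] at h; exact lt_irrefl _ h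
    have hn : 0 < n := Nat.pos_of_ne_zero fun h0 => by rw [h0, mul_zero] at h; exact lt_irrefl _ h
    obtain ⟨a, b, hab, ha, hb⟩ := ihm hm
    obtain ⟨a', b', hab', ha', hb'⟩ := ihn hn
    exact ⟨a * a', b * b', by rw [hab, hab']; ring, ha.mul ha', hb.mul hb'⟩

/-- the elements which are polynomials in a root of `α` of order prime to `S` -/
def InU (α : Ω) (S T : Set ℕ) (β : Ω) : Prop :=
  ∃ N : ℕ, CoP S N ∧ ∀ γ : Ω, γ ^ N = α → β ∈ Algebra.adjoin (OS α S T) {γ}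

theorem adjoin_mono_pow {α : Ω} {S T : Set ℕ} {γ : Ω} (k : ℕ) :
    Algebra.adjoin (OS α S T) {γ ^ k} ≤ Algebra.adjoin (OS α S T) {γ} := by
  refine Algebra.adjoin_le ?_
  intro x hx
  rw [Set.mem_singleton_iff.1 hx]
  exact pow_mem (Algebra.subset_adjoin (Set.mem_singleton γ)) k

theorem InU.both {α : Ω} {S T : Set ℕ} {β β' : Ω} (h : InU α S T β) (h' : InU α S T β') :
    ∃ N : ℕ, CoP S N ∧ ∀ γ : Ω, γ ^ N = α →
      β ∈ Algebra.adjoin (OS α S T) {γ} ∧ β' ∈ Algebra.adjoin (OS α S T) {γ} := by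
  obtain ⟨N, hN, h⟩ := h
  obtain ⟨N', hN', h'⟩ := h'
  refine ⟨N * N', hN.mul hN', fun γ hγ => ⟨?_, ?_⟩⟩
  · exact adjoin_mono_pow N' (h (γ ^ N') (by rw [← pow_mul, mul_comm, hγ]))
  · exact adjoin_mono_pow N (h' (γ ^ N) (by rw [← pow_mul, hγ]))

theorem InU.add {α : Ω} {S T : Set ℕ} {β β' : Ω} (h : InU α S T β) (h' : InU α S T β') :
    InU α S T (β + β') := by
  obtain ⟨N, hN, h⟩ := h.both h'
  exact ⟨N, hN, fun γ hγ => add_mem (h γ hγ).1 (h γ hγ).2⟩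

theorem InU.mul {α : Ω} {S T : Set ℕ} {β β' : Ω} (h : InU α S T β) (h' : InU α S T β') :
    InU α S T (β * β') := by
  obtain ⟨N, hN, h⟩ := h.both h'
  exact ⟨N, hN, fun γ hγ => mul_mem (h γ hγ).1 (h γ hγ).2⟩

theorem InU.of_OS {α : Ω} {S T : Set ℕ} {β : Ω} (h : β ∈ OS α S T) : InU α S T β :=
  ⟨1, coP_one S, fun γ _ => (Algebra.adjoin (OS α S T) {γ}).algebraMap_mem ⟨β, h⟩⟩

omit [Algebra ℚ Ω] in
theorem zpow_mem_of {R : Type*} [CommRing R] [Algebra R Ω] (A : Subalgebra R Ω) {y : Ω}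
    (h : y ∈ A) (h' : y⁻¹ ∈ A) (k : ℤ) : y ^ k ∈ A := by
  rcases Int.natAbs_eq k with e | e
  · rw [e, zpow_natCast]; exact pow_mem h _
  · rw [e, zpow_neg, zpow_natCast, ← inv_pow]; exact pow_mem h' _

theorem inv_mem_adjoin {α : Ω} (h0 : α ≠ 0) {S T : Set ℕ} (hU : UnitAt α T) {γ : Ω} {b : ℕ}
    (hb : 0 < b) (hγ : γ ^ b = α) : γ⁻¹ ∈ Algebra.adjoin (OS α S T) {γ} := by
  have hγ0 : γ ≠ 0 := by
    rintro rfl
    rw [zero_pow hb.ne'] at hγ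
    exact h0 hγ.symm
  have h1 : γ⁻¹ = γ ^ (b - 1) * α⁻¹ := by
    rw [← hγ]
    obtain ⟨m, rfl⟩ := Nat.exists_eq_succ_of_ne_zero hb.ne'
    rw [Nat.succ_sub_one, pow_succ]
    field_simp
  rw [h1]
  exact mul_mem (pow_mem (Algebra.subset_adjoin (Set.mem_singleton γ)) _)
    ((Algebra.adjoin (OS α S T) {γ}).algebraMap_mem ⟨α⁻¹, alpha_inv_mem_OS hU⟩)

theorem gen_mem [IsAlgClosed Ω] {α : Ω} (h0 : α ≠ 0) {S T : Set ℕ} (hU : UnitAt α T) {x : Ω} {n : ℕ}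
    (hn : 0 < n) (hx : x ^ n = α) : InU α S T x ∧ InU α S T x⁻¹ := by
  obtain ⟨a, b, hab, ha, hb⟩ := split S n hn
  have hco : Nat.Coprime a b :=
    Nat.coprime_of_dvd fun q hq h1 h2 => hb.2 q hq h2 (ha.2 q hq h1)
  obtain ⟨u, v, huv⟩ := Nat.isCoprime_iff_coprime.2 hco
  have key : ∀ γ : Ω, γ ^ b = α →
      x ∈ Algebra.adjoin (OS α S T) {γ} ∧ x⁻¹ ∈ Algebra.adjoin (OS α S T) {γ} := by
    intro γ hγ
    obtain ⟨ρ, hρ⟩ := IsAlgClosed.exists_pow_nat_eq α ha.1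
    have hγ0 : γ ≠ 0 := by
      rintro rfl
      rw [zero_pow hb.1.ne'] at hγ
      exact h0 hγ.symm
    have hρ0 : ρ ≠ 0 := by
      rintro rfl
      rw [zero_pow ha.1.ne'] at hρ
      exact h0 hρ.symm
    set ζ := x * γ ^ (-u) * ρ ^ (-v) with hζ
    have hζn : ζ ^ n = 1 := by
      have e1 : (γ ^ (-u)) ^ n = α ^ (-(u * a)) := by
        rw [hab, ← hγ, ← zpow_natCast, ← zpow_natCast, ← zpow_mul, ← zpow_mul]
        congr 1
        push_cast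
        ring
      have e2 : (ρ ^ (-v)) ^ n = α ^ (-(v * b)) := by
        rw [hab, ← hρ, ← zpow_natCast, ← zpow_natCast, ← zpow_mul, ← zpow_mul]
        congr 1
        push_cast
        ring
      rw [hζ, mul_pow, mul_pow, hx, e1, e2]
      nth_rewrite 1 [← zpow_one α]
      rw [← zpow_add₀ h0, ← zpow_add₀ h0]
      have : (1 : ℤ) + -(u * a) + -(v * b) = 0 := by linarith
      rw [this, zpow_zero]
    have hζ0 : ζ ≠ 0 := by
      intro h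
      rw [h, zero_pow hn.ne'] at hζn
      exact zero_ne_one hζn
    have hζ' : (ζ⁻¹) ^ n = 1 := by rw [inv_pow, hζn, inv_one]
    set B := Algebra.adjoin (OS α S T) {γ} with hB
    have hOS : ∀ z : Ω, z ∈ OS α S T → z ∈ B := fun z hz => B.algebraMap_mem ⟨z, hz⟩
    have hγB : γ ∈ B := Algebra.subset_adjoin (Set.mem_singleton γ)
    have hγB' : γ⁻¹ ∈ B := inv_mem_adjoin h0 hU hb.1 hγ
    have hx1 : x = ζ * γ ^ u * ρ ^ v := by
      have e1 : γ ^ (-u) * γ ^ u = 1 := by rw [← zpow_add₀ hγ0, neg_add_cancel, zpow_zero]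
      have e2 : ρ ^ (-v) * ρ ^ v = 1 := by rw [← zpow_add₀ hρ0, neg_add_cancel, zpow_zero]
      calc x = x * (γ ^ (-u) * γ ^ u) * (ρ ^ (-v) * ρ ^ v) := by rw [e1, e2, mul_one, mul_one]
        _ = _ := by rw [hζ]; ring
    constructor
    · rw [hx1]
      exact mul_mem (mul_mem (hOS _ (unity_mem_OS hn hζn)) (zpow_mem_of B hγB hγB' u))
        (hOS _ (root_zpow_mem_OS hU ha hρ v))
    · rw [hx1, mul_inv, mul_inv, ← zpow_neg, ← zpow_neg]
      exact mul_mem (mul_mem (hOS _ (unity_mem_OS hn hζ')) (zpow_mem_of B hγB hγB' (-u)))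
        (hOS _ (root_zpow_mem_OS hU ha hρ (-v)))
  exact ⟨⟨b, hb, fun γ hγ => (key γ hγ).1⟩, ⟨b, hb, fun γ hγ => (key γ hγ).2⟩⟩

/-- the ring generated by the roots of unity, the roots of `α` and `α⁻¹`, and `1 / s` -/
noncomputable def RG (α : Ω) (s : ℕ) : Subalgebra ℤ Ω :=
  Algebra.adjoin ℤ ({x | ∃ n : ℕ, 0 < n ∧ x ^ n = 1} ∪ {x | ∃ n : ℕ, 0 < n ∧ x ^ n = α} ∪
    {x | ∃ n : ℕ, 0 < n ∧ x ^ n = α⁻¹} ∪ {(s : Ω)⁻¹})

theorem inv_s_mem {α : Ω} {S T : Set ℕ} {s : ℕ} (hS : ∀ q : ℕ, q.Prime → q ∣ s → q ∉ T) :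
    (s : Ω)⁻¹ ∈ OS α S T := by
  refine ⟨inv_mem (_root_.natCast_mem _ s), fun l hl hlS τ => ?_⟩
  have h1 : ¬ l ∣ s := fun h => hS l hl.out h hlS
  rw [map_inv₀, norm_inv, map_natCast, norm_natCast_prime h1, inv_one]

theorem RG_InU [IsAlgClosed Ω] {α : Ω} (h0 : α ≠ 0) {S T : Set ℕ} (hU : UnitAt α T) {s : ℕ}
    (hS : ∀ q : ℕ, q.Prime → q ∣ s → q ∉ T) {β : Ω} (hβ : β ∈ RG α s) : InU α S T β := by
  unfold RG at hβ
  induction hβ using Algebra.adjoin_induction with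
  | mem x hx =>
    rcases hx with ((⟨n, hn, h⟩ | ⟨n, hn, h⟩) | ⟨n, hn, h⟩) | h
    · exact InU.of_OS (unity_mem_OS hn h)
    · exact (gen_mem h0 hU hn h).1
    · have h1 : (x⁻¹) ^ n = α := by rw [inv_pow, h, inv_inv]
      have h2 := (gen_mem (S := S) h0 hU hn h1).2
      rwa [inv_inv] at h2
    · rw [Set.mem_singleton_iff.1 h]
      exact InU.of_OS (inv_s_mem hS)
  | algebraMap r =>
    rw [eq_intCast]
    exact InU.of_OS (_root_.intCast_mem (OS α S T) r)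
  | add x y _ _ hx hy => exact hx.add hy
  | mul x y _ _ hx hy => exact hx.mul hy

end RR
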