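import Mathlib

/-!
A Hadamard type inequality: `|det Y|² ≤ cⁿ exp (‖Y‖² / c - n)`.
-/

namespace RR

open Matrix Finset
open scoped ComplexOrder

variable {n : Type*} [Fintype n] [DecidableEq n]

theorem trace_conjTranspose_mul (Y : Matrix n n ℂ) :
    (Yᴴ * Y).trace = ((∑ i, ∑ j, ‖Y i j‖ ^ 2 : ℝ) : ℂ) := by
  rw [Matrix.trace]
  simp only [Matrix.diag_apply, Matrix.mul_apply, Matrix.conjTranspose_apply]
  rw [Finset.sum_comm]
  push_cast
  refine Finset.sum_congr rfl fun i _ => Finset.sum_congr rfl fun j _ => ?_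
  rw [mul_comm, RCLike.star_def, Complex.mul_conj, Complex.normSq_eq_norm_sq]
  push_cast
  rfl

theorem det_sq_le (Y : Matrix n n ℂ) {c : ℝ} (hc : 0 < c) :
    ‖Y.det‖ ^ 2 ≤ c ^ (Fintype.card n) *
      Real.exp ((∑ i, ∑ j, ‖Y i j‖ ^ 2) / c - Fintype.card n) := by
  have hP : (Yᴴ * Y).PosSemidef := Matrix.posSemidef_conjTranspose_mul_self Y
  have hH := hP.isHermitian
  have hdet := hH.det_eq_prod_eigenvalues
  have htr := hH.trace_eq_sum_eigenvalues
  rw [Matrix.det_mul, Matrix.det_conjTranspose, RCLike.star_def, mul_comm, Complex.mul_conj,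
    Complex.normSq_eq_norm_sq] at hdet
  rw [trace_conjTranspose_mul] at htr
  have hdet' : ‖Y.det‖ ^ 2 = ∏ i, hH.eigenvalues i := by
    have : ((‖Y.det‖ ^ 2 : ℝ) : ℂ) = ((∏ i, hH.eigenvalues i : ℝ) : ℂ) := by
      rw [hdet]; push_cast; rfl
    exact_mod_cast this
  have htr' : (∑ i, ∑ j, ‖Y i j‖ ^ 2) = ∑ i, hH.eigenvalues i := by
    have : ((∑ i, ∑ j, ‖Y i j‖ ^ 2 : ℝ) : ℂ) = ((∑ i, hH.eigenvalues i : ℝ) : ℂ) := by
      rw [htr]; push_cast; rfl
    exact_mod_cast this
  rw [hdet', htr']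
  calc ∏ i, hH.eigenvalues i ≤ ∏ i, (c * Real.exp (hH.eigenvalues i / c - 1)) := by
        refine Finset.prod_le_prod (fun i _ => hP.eigenvalues_nonneg i) fun i _ => ?_
        have h1 := Real.add_one_le_exp (hH.eigenvalues i / c - 1)
        rw [sub_add_cancel] at h1
        calc hH.eigenvalues i = c * (hH.eigenvalues i / c) := by field_simp
          _ ≤ _ := mul_le_mul_of_nonneg_left h1 hc.le
    _ = _ := by
        rw [Finset.prod_mul_distrib, Finset.prod_const, Finset.card_univ, ← Real.exp_sum,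
          Finset.sum_sub_distrib, ← Finset.sum_div]
        simp

end RR
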