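import Pool.Agent.Lib_helper72.RR.Non
import Pool.Agent.Lib_helper24.MS.Heights3

/-!
The main inequality (product formula for the minors of the circulant).
-/

namespace RR

open Matrix Finset MS

section

variable {E : Type*} [Field E] [Algebra ℚ E] [FiniteDimensional ℚ E] {d : ℕ} [NeZero d]

/-- the character and an embedding -/
noncomputable def tch {S : Type*} [CommRing S] [Algebra ℚ S] (τ : E →ₐ[ℚ] S)
    (ψ : AddChar (ZMod d) E) : AddChar (ZMod d) S :=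
  ((τ : E →+* S) : E →* S).compAddChar ψ

theorem bk_tch {S : Type*} [CommRing S] [Algebra ℚ S] (τ : E →ₐ[ℚ] S)
    (ψ : AddChar (ZMod d) E) (a : ZMod d → E) (k : ZMod d) :
    bk (tch τ ψ) (fun l => τ (a l)) k = τ (bk ψ a k) := bk_map ψ (τ : E →+* S) a k

theorem det_tch {S : Type*} [CommRing S] [Algebra ℚ S] (τ : E →ₐ[ℚ] S)
    (a : ZMod d → E) (J : Finset (ZMod d)) (π : Equiv.Perm (ZMod d)) :
    (XM (fun l => τ (a l)) J π).det = τ (XM a J π).det := XM_map (τ : E →+* S) a J π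

theorem orth_tch {S : Type*} [CommRing S] [Algebra ℚ S] (τ : E →ₐ[ℚ] S)
    {ψ : AddChar (ZMod d) E} (ho : Orth ψ) : Orth (tch τ ψ) := ho.map (τ : E →+* S)

theorem hna (l : ℕ) [Fact l.Prime] (x y : PadicAlgCl l) : ‖x + y‖ ≤ max ‖x‖ ‖y‖ :=
  PadicAlgCl.isNonarchimedean l x y

theorem norm_natCast_prime {l : ℕ} [hl : Fact l.Prime] {n : ℕ} (h : ¬ l ∣ n) :
    ‖(n : PadicAlgCl l)‖ = 1 := by
  have h1 : ((n : ℕ) : PadicAlgCl l) = algebraMap ℚ_[l] (PadicAlgCl l) (n : ℚ_[l]) := by simp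
  rw [h1, norm_algebraMap']
  have h2 : ((n : ℕ) : ℚ_[l]) = ((n : ℤ) : ℚ_[l]) := by simp
  rw [h2]
  apply le_antisymm (Padic.norm_int_le_one _)
  rw [← not_lt]
  intro h3
  apply h
  exact_mod_cast Padic.norm_intCast_lt_one_iff.1 h3

/-- the main inequality -/
theorem main_bound {ψ : AddChar (ZMod d) E} (ho : Orth ψ) (a : ZMod d → E)
    (hint : ∀ (l : ℕ) [Fact l.Prime], l ∣ d → ∀ τ : E →ₐ[ℚ] PadicAlgCl l, ∀ x, ‖τ (a x)‖ ≤ 1)
    (J : Finset (ZMod d)) (π : Equiv.Perm (ZMod d)) (hdet : (XM a J π).det ≠ 0) :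
    ∑ τ : E →ₐ[ℚ] ℂ, ∑ j ∈ J, ∑ i ∈ Jᶜ, bet (tch τ ψ) (fun l => τ (a l)) (π i - j) ≤
      2 * (Module.finrank ℚ E * ∑ k, ht (bk ψ a k)) := by
  set y := (XM a J π).det with hy
  choose C hC hCinf hCfin using fun k : ZMod d => ht_key (bk ψ a k)
  set n := Module.finrank ℚ E with hn
  set r : ℚ := (∏ k, (C k : ℚ)) * Algebra.norm ℚ y with hr
  have hnorm0 : Algebra.norm ℚ y ≠ 0 := Algebra.norm_ne_zero_iff.2 hdet
  have hCne : ∀ k, (C k : ℚ) ≠ 0 := fun k => by exact_mod_cast (hC k).ne'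
  have hr0 : r ≠ 0 := mul_ne_zero (Finset.prod_ne_zero_iff.2 fun k _ => hCne k) hnorm0
  have hint' : ∃ m : ℤ, r = m := by
    apply rat_int
    intro l hl
    have h1 : ‖((Algebra.norm ℚ y : ℚ) : ℚ_[l])‖ = ∏ τ : E →ₐ[ℚ] PadicAlgCl l, ‖τ y‖ := by
      rw [← norm_ratCast, ← norm_prod, ← Algebra.norm_eq_prod_embeddings ℚ (PadicAlgCl l) y,
        eq_ratCast]
    rw [hr]
    push_cast
    rw [norm_mul, norm_prod, h1]
    by_cases hld : l ∣ d
    · have h2 : ∏ τ : E →ₐ[ℚ] PadicAlgCl l, ‖τ y‖ ≤ 1 := by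
        refine Finset.prod_le_one (fun _ _ => norm_nonneg _) fun τ _ => ?_
        rw [hy, ← det_tch]
        exact non_one (hna l) _ _ _ (hint l hld τ)
      have h3 : ∏ k, ‖(C k : ℚ_[l])‖ ≤ 1 := by
        refine Finset.prod_le_one (fun _ _ => norm_nonneg _) fun k _ => ?_
        have h4 : ((C k : ℕ) : ℚ_[l]) = ((C k : ℤ) : ℚ_[l]) := by simp
        rw [h4]
        exact Padic.norm_int_le_one _
      exact mul_le_one₀ h3 (Finset.prod_nonneg fun _ _ => norm_nonneg _) h2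
    · have hd1 : ‖(d : PadicAlgCl l)‖ = 1 := norm_natCast_prime hld
      have h2 : ∏ τ : E →ₐ[ℚ] PadicAlgCl l, ‖τ y‖ ≤
          ∏ k, ∏ τ : E →ₐ[ℚ] PadicAlgCl l, max 1 ‖τ (bk ψ a k)‖ := by
        rw [Finset.prod_comm]
        refine Finset.prod_le_prod (fun _ _ => norm_nonneg _) fun τ _ => ?_
        rw [hy, ← det_tch]
        have h3 := non_prod (hna l) (orth_tch τ ho) hd1 (fun l => τ (a l)) J π
        simpa only [bk_tch] using h3
      calc (∏ k, ‖(C k : ℚ_[l])‖) * ∏ τ : E →ₐ[ℚ] PadicAlgCl l, ‖τ y‖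
          ≤ (∏ k, ‖(C k : ℚ_[l])‖) *
            ∏ k, ∏ τ : E →ₐ[ℚ] PadicAlgCl l, max 1 ‖τ (bk ψ a k)‖ :=
              mul_le_mul_of_nonneg_left h2 (Finset.prod_nonneg fun _ _ => norm_nonneg _)
        _ = 1 := by
            rw [← Finset.prod_mul_distrib]
            exact Finset.prod_eq_one fun k _ => hCfin k l
  obtain ⟨m, hm⟩ := hint'
  have hm0 : m ≠ 0 := by
    rintro rfl
    exact hr0 (by rw [hm]; simp)
  have hlow : (1 : ℝ) ≤ |(m : ℝ)| := by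
    have := Int.one_le_abs hm0
    exact_mod_cast this
  -- the archimedean absolute value
  set T : (E →ₐ[ℚ] ℂ) → ℝ := fun τ =>
    ∑ j ∈ J, ∑ i ∈ Jᶜ, bet (tch τ ψ) (fun l => τ (a l)) (π i - j) with hT
  have hup : |(m : ℝ)| ^ 2 ≤ Real.exp (2 * (n * ∑ k, ht (bk ψ a k)) - ∑ τ, T τ) := by
    have h1 : |(m : ℝ)| = ‖((r : ℚ) : ℂ)‖ := by
      rw [hm]
      simp
    have h2 : ‖((Algebra.norm ℚ y : ℚ) : ℂ)‖ = ∏ τ : E →ₐ[ℚ] ℂ, ‖τ y‖ := by
      rw [← norm_prod, ← Algebra.norm_eq_prod_embeddings ℚ ℂ y, eq_ratCast]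
    have h3 : ∀ τ : E →ₐ[ℚ] ℂ, ‖τ y‖ ^ 2 ≤ (∏ k, max 1 ‖τ (bk ψ a k)‖) ^ 2 *
        Real.exp (-T τ) := by
      intro τ
      rw [hy, ← det_tch]
      have := arch (orth_tch τ ho) (fun l => τ (a l)) J π
      simpa only [bk_tch] using this
    rw [h1, hr]
    push_cast
    rw [norm_mul, norm_prod, h2, mul_pow, ← Finset.prod_pow univ _ (fun τ : E →ₐ[ℚ] ℂ => ‖τ y‖)]
    calc (∏ k, ‖(C k : ℂ)‖) ^ 2 * ∏ τ : E →ₐ[ℚ] ℂ, ‖τ y‖ ^ 2
        ≤ (∏ k, ‖(C k : ℂ)‖) ^ 2 * ∏ τ : E →ₐ[ℚ] ℂ, ((∏ k, max 1 ‖τ (bk ψ a k)‖) ^ 2 *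
        Real.exp (-T τ)) := by
          refine mul_le_mul_of_nonneg_left ?_ (by positivity)
          exact Finset.prod_le_prod (fun _ _ => by positivity) fun τ _ => h3 τ
      _ = (∏ k, (C k * ∏ τ : E →ₐ[ℚ] ℂ, max 1 ‖τ (bk ψ a k)‖)) ^ 2 *
          Real.exp (-∑ τ, T τ) := by
          rw [Finset.prod_mul_distrib, Finset.prod_pow, Finset.prod_comm, ← Real.exp_sum,
            Finset.sum_neg_distrib, Finset.prod_mul_distrib]
          simp only [RCLike.norm_natCast]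
          ring
      _ = Real.exp (2 * (n * ∑ k, ht (bk ψ a k)) - ∑ τ, T τ) := by
          have h4 : ∀ k, (C k * ∏ τ : E →ₐ[ℚ] ℂ, max 1 ‖τ (bk ψ a k)‖) =
              Real.exp (n * ht (bk ψ a k)) := fun k => (hCinf k).symm
          simp only [h4]
          rw [← Real.exp_sum, ← Finset.mul_sum, ← Real.exp_nat_mul, ← Real.exp_add]
          congr 1
  have h5 : (1 : ℝ) ≤ Real.exp (2 * (n * ∑ k, ht (bk ψ a k)) - ∑ τ, T τ) :=
    le_trans (by nlinarith) hup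
  rw [Real.one_le_exp_iff] at h5
  linarith

end

end RR
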