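import Pool.Agent.Lib_helper72.RR.MI
import Pool.Agent.Lib_helper24.MS.Global1

/-!
The total weight, and the main inequality over an algebraic closure.
-/

namespace RR

open Matrix Finset MS

section

variable {d : ℕ} [NeZero d]

theorem sum_bet {ψ : AddChar (ZMod d) ℂ} (ho : Orth ψ) (a : ZMod d → ℂ) :
    ∑ l, bet ψ a l = (1 / d) * ∑ k, (‖bk ψ a k‖ / (max 1 ‖bk ψ a k‖) ^ 2) ^ 2 := by
  have hd : (0 : ℝ) < d := by exact_mod_cast NeZero.pos d
  set c : ZMod d → ℂ := fun k => bk ψ a k / ((max 1 ‖bk ψ a k‖ : ℝ) : ℂ) ^ 2 with hc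
  have h1 := plancherel ho c
  have h2 : ∑ l, bet ψ a l = ∑ l, (1 / d : ℝ) ^ 2 * ‖∑ k, c k * ψ (l * k)‖ ^ 2 := by
    rw [← Equiv.sum_comp (Equiv.neg (ZMod d))]
    refine Finset.sum_congr rfl fun l _ => ?_
    unfold bet gam
    rw [norm_mul, mul_pow, norm_div, norm_one, RCLike.norm_natCast]
    congr 3
    refine Finset.sum_congr rfl fun k _ => ?_
    simp only [hc, Equiv.neg_apply]
    congr 2
    ring
  rw [h2, ← Finset.mul_sum, h1]
  have h3 : ∀ k, ‖c k‖ ^ 2 = (‖bk ψ a k‖ / (max 1 ‖bk ψ a k‖) ^ 2) ^ 2 := by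
    intro k
    simp only [hc]
    rw [norm_div, norm_pow, Complex.norm_real, Real.norm_of_nonneg
      (le_trans zero_le_one (le_max_left _ _))]
  simp only [h3]
  field_simp

theorem frac_le (x : ℝ) (hx : 0 ≤ x) : (x / (max 1 x) ^ 2) ^ 2 ≤ 1 := by
  have h1 : (1 : ℝ) ≤ max 1 x := le_max_left _ _
  have h2 : x ≤ max 1 x := le_max_right _ _
  have h3 : x / (max 1 x) ^ 2 ≤ 1 := by
    rw [div_le_one (by positivity)]
    nlinarith
  have h4 : 0 ≤ x / (max 1 x) ^ 2 := by positivity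
  exact pow_le_one₀ h4 h3

theorem frac_ge (x : ℝ) (hx : 0 < x) : 1 - 2 * Real.log (max 1 x) - 2 * Real.log (max 1 x⁻¹) ≤
    (x / (max 1 x) ^ 2) ^ 2 := by
  rcases le_total x 1 with h | h
  · rw [max_eq_left h, max_eq_right ((one_le_inv₀ hx).2 h), Real.log_one, Real.log_inv]
    have h1 := Real.add_one_le_exp (2 * Real.log x)
    have h2 : Real.exp (2 * Real.log x) = x ^ 2 := by
      rw [mul_comm, Real.exp_mul, Real.exp_log hx]; norm_cast
    rw [h2] at h1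
    simp only [one_pow, div_one]
    linarith
  · rw [max_eq_right h, max_eq_left (inv_le_one_of_one_le₀ h), Real.log_one]
    have h1 := Real.add_one_le_exp (2 * -Real.log x)
    have h2 : Real.exp (2 * -Real.log x) = (x / x ^ 2) ^ 2 := by
      rw [mul_comm, Real.exp_mul, Real.exp_neg, Real.exp_log hx]
      have : x / x ^ 2 = x⁻¹ := by field_simp
      rw [this]
      norm_cast
    rw [h2] at h1
    linarith

end

section

variable {E : Type*} [Field E] [Algebra ℚ E] [FiniteDimensional ℚ E] {d : ℕ} [NeZero d]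

theorem sum_log_le (x : E) :
    ∑ τ : E →ₐ[ℚ] ℂ, Real.log (max 1 ‖τ x‖) ≤ Module.finrank ℚ E * ht x := by
  obtain ⟨C, hC, h1, -⟩ := ht_key x
  have hp : ∀ τ : E →ₐ[ℚ] ℂ, (0 : ℝ) < max 1 ‖τ x‖ := fun τ =>
    lt_of_lt_of_le one_pos (le_max_left _ _)
  rw [← Real.log_prod fun τ _ => (hp τ).ne', Real.log_le_iff_le_exp
    (Finset.prod_pos fun τ _ => hp τ), h1]
  have h2 : (1 : ℝ) ≤ C := by exact_mod_cast hC
  have h3 : 0 ≤ ∏ τ : E →ₐ[ℚ] ℂ, max 1 ‖τ x‖ := Finset.prod_nonneg fun τ _ => (hp τ).le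
  nlinarith

/-- the averaged weights -/
noncomputable def bb (ψ : AddChar (ZMod d) E) (a : ZMod d → E) (l : ZMod d) : ℝ :=
  (∑ τ : E →ₐ[ℚ] ℂ, bet (tch τ ψ) (fun l => τ (a l)) l) / Module.finrank ℚ E

theorem bb_nonneg (ψ : AddChar (ZMod d) E) (a : ZMod d → E) (l : ZMod d) : 0 ≤ bb ψ a l := by
  unfold bb bet
  positivity

theorem sum_bb_le {ψ : AddChar (ZMod d) E} (ho : Orth ψ) (a : ZMod d → E) :
    ∑ l, bb ψ a l ≤ 1 := by
  have hn : (0 : ℝ) < Module.finrank ℚ E := finrank_pos'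
  have hd : (0 : ℝ) < d := by exact_mod_cast NeZero.pos d
  unfold bb
  rw [← Finset.sum_div, div_le_one hn, Finset.sum_comm]
  have h1 : ∀ τ : E →ₐ[ℚ] ℂ, ∑ l, bet (tch τ ψ) (fun l => τ (a l)) l ≤ 1 := by
    intro τ
    rw [sum_bet (orth_tch τ ho), one_div, inv_mul_le_iff₀ hd, mul_one]
    calc ∑ k, (‖bk (tch τ ψ) (fun l => τ (a l)) k‖ /
          (max 1 ‖bk (tch τ ψ) (fun l => τ (a l)) k‖) ^ 2) ^ 2 ≤ ∑ _k : ZMod d, (1 : ℝ) :=
          Finset.sum_le_sum fun k _ => frac_le _ (norm_nonneg _)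
      _ = d := by simp [ZMod.card]
  calc ∑ τ : E →ₐ[ℚ] ℂ, ∑ l, bet (tch τ ψ) (fun l => τ (a l)) l ≤ ∑ _τ : E →ₐ[ℚ] ℂ, (1 : ℝ) :=
        Finset.sum_le_sum fun τ _ => h1 τ
    _ = _ := by rw [Finset.sum_const, Finset.card_univ, card_emb]; simp

theorem sum_bb_ge {ψ : AddChar (ZMod d) E} (ho : Orth ψ) (a : ZMod d → E)
    (hb : ∀ k, bk ψ a k ≠ 0) {h : ℝ} (hh : ∀ k, ht (bk ψ a k) = h) :
    1 - 4 * h ≤ ∑ l, bb ψ a l := by
  have hn : (0 : ℝ) < Module.finrank ℚ E := finrank_pos'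
  have hd : (0 : ℝ) < d := by exact_mod_cast NeZero.pos d
  unfold bb
  rw [← Finset.sum_div, le_div_iff₀ hn, Finset.sum_comm]
  have h1 : ∀ τ : E →ₐ[ℚ] ℂ, (1 / d : ℝ) * ∑ k, (1 - 2 * Real.log (max 1 ‖τ (bk ψ a k)‖) -
      2 * Real.log (max 1 ‖τ (bk ψ a k)⁻¹‖)) ≤ ∑ l, bet (tch τ ψ) (fun l => τ (a l)) l := by
    intro τ
    rw [sum_bet (orth_tch τ ho)]
    refine mul_le_mul_of_nonneg_left (Finset.sum_le_sum fun k _ => ?_) (by positivity)
    rw [bk_tch, map_inv₀, norm_inv]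
    exact frac_ge _ (norm_pos_iff.2 ((map_ne_zero τ).2 (hb k)))
  calc (1 - 4 * h) * (Module.finrank ℚ E : ℝ)
      = (1 / d : ℝ) * ∑ _k : ZMod d, ((Module.finrank ℚ E : ℝ) - 2 * (Module.finrank ℚ E * h) -
        2 * (Module.finrank ℚ E * h)) := by
        rw [Finset.sum_const, Finset.card_univ, ZMod.card, nsmul_eq_mul]
        field_simp
        ring
    _ ≤ (1 / d : ℝ) * ∑ k : ZMod d, ∑ τ : E →ₐ[ℚ] ℂ, (1 - 2 * Real.log (max 1 ‖τ (bk ψ a k)‖) -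
      2 * Real.log (max 1 ‖τ (bk ψ a k)⁻¹‖)) := by
        refine mul_le_mul_of_nonneg_left (Finset.sum_le_sum fun k _ => ?_) (by positivity)
        rw [Finset.sum_sub_distrib, Finset.sum_sub_distrib, ← Finset.mul_sum, ← Finset.mul_sum,
          Finset.sum_const, Finset.card_univ, card_emb, nsmul_eq_mul, mul_one]
        have e1 := sum_log_le (bk ψ a k)
        have e2 := sum_log_le (bk ψ a k)⁻¹
        rw [ht_inv', hh k] at e2
        rw [hh k] at e1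
        linarith
    _ = ∑ τ : E →ₐ[ℚ] ℂ, (1 / d : ℝ) * ∑ k, (1 - 2 * Real.log (max 1 ‖τ (bk ψ a k)‖) -
      2 * Real.log (max 1 ‖τ (bk ψ a k)⁻¹‖)) := by
        rw [Finset.sum_comm, Finset.mul_sum]
    _ ≤ _ := Finset.sum_le_sum fun τ _ => h1 τ

theorem main_bb {ψ : AddChar (ZMod d) E} (ho : Orth ψ) (a : ZMod d → E)
    (hint : ∀ (l : ℕ) [Fact l.Prime], l ∣ d → ∀ τ : E →ₐ[ℚ] PadicAlgCl l, ∀ x, ‖τ (a x)‖ ≤ 1)
    {h : ℝ} (hh : ∀ k, ht (bk ψ a k) = h)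
    (J : Finset (ZMod d)) (π : Equiv.Perm (ZMod d)) (hdet : (XM a J π).det ≠ 0) :
    ∑ j ∈ J, ∑ i ∈ Jᶜ, bb ψ a (π i - j) ≤ 2 * (d * h) := by
  have hn : (0 : ℝ) < Module.finrank ℚ E := finrank_pos'
  have h1 := main_bound ho a hint J π hdet
  simp only [hh, Finset.sum_const, Finset.card_univ, ZMod.card, nsmul_eq_mul] at h1
  unfold bb
  simp only [← Finset.sum_div]
  rw [div_le_iff₀ hn]
  have h2 : ∑ j ∈ J, ∑ i ∈ Jᶜ, ∑ τ : E →ₐ[ℚ] ℂ, bet (tch τ ψ) (fun l => τ (a l)) (π i - j) =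
      ∑ τ : E →ₐ[ℚ] ℂ, ∑ j ∈ J, ∑ i ∈ Jᶜ, bet (tch τ ψ) (fun l => τ (a l)) (π i - j) := by
    rw [Finset.sum_comm (s := univ) (t := J)]
    exact Finset.sum_congr rfl fun j _ => Finset.sum_comm
  rw [h2]
  linarith

end

/-! ### over an algebraic closure -/

section closure

universe u

variable {Ω : Type u} [Field Ω] [Algebra ℚ Ω] [Algebra.IsAlgebraic ℚ Ω]

open IntermediateField

theorem exists_field_fin {ι : Type} [Finite ι] (v : ι → Ω) : ∃ (M : Type u) (_ : Field M)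
    (_ : Algebra ℚ M) (_ : FiniteDimensional ℚ M) (φ : M →+* Ω) (v' : ι → M),
    ∀ i, φ (v' i) = v i := by
  have h : FiniteDimensional ℚ (adjoin ℚ (Set.range v)) := by
    have : Finite (Set.range v) := (Set.finite_range v).to_subtype
    apply IntermediateField.finiteDimensional_adjoin
    intro z _
    exact Algebra.IsIntegral.isIntegral z
  exact ⟨adjoin ℚ (Set.range v), inferInstance, IntermediateField.algebra' _, h,
    algebraMap (adjoin ℚ (Set.range v)) Ω, fun i => ⟨v i, subset_adjoin _ _ ⟨i, rfl⟩⟩,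
    fun i => rfl⟩

/-- the main inequality over `Ω` -/
theorem main_omega {d : ℕ} [NeZero d] {ψ : AddChar (ZMod d) Ω} (ho : Orth ψ) (a : ZMod d → Ω)
    (hint : ∀ (l : ℕ) [Fact l.Prime], l ∣ d → ∀ τ : Ω →+* PadicAlgCl l, ∀ x, ‖τ (a x)‖ ≤ 1)
    (hb : ∀ k, bk ψ a k ≠ 0) {h : ℝ} (hh : ∀ k, ht (bk ψ a k) = h) :
    ∃ β : ZMod d → ℝ, (∀ l, 0 ≤ β l) ∧ ∑ l, β l ≤ 1 ∧ 1 - 4 * h ≤ ∑ l, β l ∧
      ∀ (J : Finset (ZMod d)) (π : Equiv.Perm (ZMod d)), (XM a J π).det ≠ 0 →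
        ∑ j ∈ J, ∑ i ∈ Jᶜ, β (π i - j) ≤ 2 * (d * h) := by
  obtain ⟨E, _, _, _, φ, v, hv⟩ := exists_field_fin (Ω := Ω)
    (Sum.elim a ψ : ZMod d ⊕ ZMod d → Ω)
  have hφ : Function.Injective φ := φ.injective
  set a' : ZMod d → E := fun x => v (Sum.inl x) with ha'
  have hψv : ∀ x, φ (v (Sum.inr x)) = ψ x := fun x => hv (Sum.inr x)
  have hav : ∀ x, φ (a' x) = a x := fun x => hv (Sum.inl x)
  obtain ⟨ψ', hψ'⟩ : ∃ ψ' : AddChar (ZMod d) E, ∀ x, φ (ψ' x) = ψ x := by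
    refine ⟨{ toFun := fun x => v (Sum.inr x), map_zero_eq_one' := ?_, map_add_eq_mul' := ?_ },
      fun x => hψv x⟩
    · apply hφ
      rw [hψv, map_one, AddChar.map_zero_eq_one]
    · intro x y
      apply hφ
      rw [map_mul φ, hψv, hψv, hψv, AddChar.map_add_eq_mul]
  have ho' : Orth ψ' := by
    intro x hx
    apply hφ
    rw [map_sum, map_zero]
    simp only [hψ']
    exact ho x hx
  have hbk : ∀ k, φ (bk ψ' a' k) = bk ψ a k := by
    intro k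
    unfold bk
    rw [map_sum]
    refine Finset.sum_congr rfl fun l _ => ?_
    rw [map_mul φ, hψ', hav]
  have hb' : ∀ k, bk ψ' a' k ≠ 0 := by
    intro k h0
    apply hb k
    rw [← hbk, h0, map_zero]
  have hh' : ∀ k, ht (bk ψ' a' k) = h := by
    intro k
    rw [← hh k, ← hbk, ht_ringHom]
  have hint' : ∀ (l : ℕ) [Fact l.Prime], l ∣ d → ∀ τ : E →ₐ[ℚ] PadicAlgCl l, ∀ x,
      ‖τ (a' x)‖ ≤ 1 := by
    intro l hl hld τ x
    obtain ⟨τ', h⟩ := exists_extend φ (τ : E →+* PadicAlgCl l)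
    have h1 := hint l hld τ' x
    rw [← hav, h] at h1
    exact h1
  refine ⟨bb ψ' a', bb_nonneg ψ' a', sum_bb_le ho' a', sum_bb_ge ho' a' hb' hh',
    fun J π hdet => main_bb ho' a' hint' hh' J π ?_⟩
  intro h0
  apply hdet
  have h1 := XM_map φ a' J π
  rw [h0, map_zero] at h1
  simpa only [hav] using h1

end closure

end RR
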