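import Pool.Agent.Lib_helper72.RR.Four

/-!
The nonarchimedean determinant bounds.
-/

namespace RR

open Matrix Finset

section

variable {K : Type*} [NormedField K] (hna : ∀ x y : K, ‖x + y‖ ≤ max ‖x‖ ‖y‖)

include hna

theorem norm_sum_le' {ι : Type*} (s : Finset ι) (f : ι → K) {c : ℝ} (hc : 0 ≤ c)
    (h : ∀ i ∈ s, ‖f i‖ ≤ c) : ‖∑ i ∈ s, f i‖ ≤ c := by
  classical
  induction s using Finset.induction_on with
  | empty => simpa using hc
  | insert a s ha ih =>
    rw [Finset.sum_insert ha]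
    exact (hna _ _).trans (max_le (h a (by simp)) (ih fun i hi => h i (by simp [hi])))

theorem norm_det_le {n : Type*} [Fintype n] [DecidableEq n] (A : Matrix n n K) (r : n → ℝ)
    (hr : ∀ i, 0 ≤ r i) (h : ∀ i j, ‖A i j‖ ≤ r i) : ‖A.det‖ ≤ ∏ i, r i := by
  rw [Matrix.det_apply]
  refine norm_sum_le' hna _ _ (Finset.prod_nonneg fun i _ => hr i) fun σ _ => ?_
  have h1 : ‖Equiv.Perm.sign σ • ∏ i, A (σ i) i‖ = ‖∏ i, A (σ i) i‖ := by
    rcases Int.units_eq_one_or (Equiv.Perm.sign σ) with h | h <;> rw [h] <;> simp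
  rw [h1, norm_prod, ← Equiv.prod_comp σ r]
  exact Finset.prod_le_prod (fun _ _ => norm_nonneg _) fun i _ => h _ _

variable {d : ℕ} [NeZero d]

/-- trivial bound -/
theorem non_one (a : ZMod d → K) (J : Finset (ZMod d)) (π : Equiv.Perm (ZMod d))
    (ha : ∀ l, ‖a l‖ ≤ 1) : ‖(XM a J π).det‖ ≤ 1 := by
  have h := norm_det_le hna (XM a J π) (fun _ => 1) (fun _ => zero_le_one) ?_
  · simpa using h
  · intro i j
    simp only [XM, Matrix.of_apply]
    split_ifs
    · exact ha _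
    · simp
    · simp

/-- the bound away from `d` -/
theorem non_prod {ψ : AddChar (ZMod d) K} (ho : Orth ψ) (hd : ‖(d : K)‖ = 1) (a : ZMod d → K)
    (J : Finset (ZMod d)) (π : Equiv.Perm (ZMod d)) :
    ‖(XM a J π).det‖ ≤ ∏ k, max 1 ‖bk ψ a k‖ := by
  have hψ : ∀ x : ZMod d, ‖ψ x‖ = 1 := fun x => AddChar.norm_apply ψ x
  have h1 : ‖(FM ψ).det‖ ≤ 1 := by
    have h := norm_det_le hna (FM ψ) (fun _ => 1) (fun _ => zero_le_one)
      (fun i j => by simp [FM, hψ])
    simpa using h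
  have h2 : ‖(FM' ψ).det‖ ≤ 1 := by
    have h := norm_det_le hna (FM' ψ) (fun _ => 1) (fun _ => zero_le_one)
      (fun i j => by simp [FM', hψ])
    simpa using h
  have h3 : ‖(FM' ψ).det‖ * ‖(FM ψ).det‖ = 1 := by
    rw [← norm_mul, det_FM' ho, norm_pow, hd, one_pow]
  have h4 : 1 ≤ ‖(FM ψ).det‖ := by
    by_contra hlt
    rw [not_le] at hlt
    nlinarith [norm_nonneg (FM' ψ).det, norm_nonneg (FM ψ).det]
  have h5 : ‖(FM ψ * XM a J π).det‖ ≤ ∏ k, max 1 ‖bk ψ a k‖ := by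
    refine norm_det_le hna _ _ (fun k => le_trans zero_le_one (le_max_left _ _)) fun k j => ?_
    rw [FM_mul_XM]
    split_ifs
    · rw [norm_mul, hψ, mul_one]; exact le_max_right _ _
    · rw [hψ]; exact le_max_left _ _
  rw [Matrix.det_mul, norm_mul] at h5
  nlinarith [norm_nonneg (XM a J π).det]

end

end RR
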