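import Mathlib

/-!
Padé approximants and windows.
-/

namespace RR

open Finset Polynomial

variable {K : Type*} [Field K]

/-- Bezout with degrees -/
theorem bez {R Q : K[X]} {κ : ℕ} (hκ : 0 < κ) (hR : R.natDegree = κ) (hQ : Q.natDegree ≤ κ)
    (hco : IsCoprime Q R) {S : K[X]} (hS : S.natDegree < 2 * κ) :
    ∃ U V : K[X], U.natDegree < κ ∧ V.natDegree < κ ∧ S = U * R + V * Q := by
  have hR0 : R ≠ 0 := by rintro rfl; simp at hR; omega
  obtain ⟨b, a, hab⟩ := hco
  -- `b * Q + a * R = 1`
  set V := (S * b) % R with hV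
  have hdiv : R * ((S * b) / R) + V = S * b := EuclideanDomain.div_add_mod (S * b) R
  set Wq := (S * b) / R with hWq
  set U := S * a + Wq * Q with hU
  have hVd : V.natDegree < κ := by
    have h1 : V.degree < R.degree := EuclideanDomain.mod_lt (S * b) hR0
    by_cases hV0 : V = 0
    · rw [hV0]; simpa using hκ
    · rw [degree_eq_natDegree hV0, degree_eq_natDegree hR0, hR] at h1
      exact_mod_cast h1
  have heq : S = U * R + V * Q := by
    rw [hU]
    linear_combination (-S) * hab - Q * hdiv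
  refine ⟨U, V, ?_, hVd, heq⟩
  by_cases hU0 : U = 0
  · rw [hU0]; simpa using hκ
  have h2 : U * R = S - V * Q := by linear_combination -heq
  have h3 : (U * R).natDegree = U.natDegree + κ := by rw [natDegree_mul hU0 hR0, hR]
  have h4 : (S - V * Q).natDegree < 2 * κ := by
    have h5 := natDegree_sub_le S (V * Q)
    have h6 : (V * Q).natDegree ≤ V.natDegree + Q.natDegree := natDegree_mul_le
    have : max S.natDegree (V * Q).natDegree < 2 * κ := max_lt hS (by omega)
    omega
  rw [← h2, h3] at h4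
  omega

/-- the functional attached to a finite sequence -/
noncomputable def phi (κ : ℕ) (z : ℕ → K) : K[X] →ₗ[K] K :=
  ∑ i ∈ range (2 * κ), z (2 * κ - 1 - i) • lcoeff K i

theorem phi_apply (κ : ℕ) (z : ℕ → K) (S : K[X]) :
    phi κ z S = ∑ i ∈ range (2 * κ), z (2 * κ - 1 - i) * S.coeff i := by
  unfold phi
  simp

theorem phi_X_mul {κ : ℕ} {z : ℕ → K} {R : K[X]} (hR : R.natDegree ≤ κ) {a : ℕ} (ha : a < κ) :
    phi κ z (X ^ a * R) = ∑ m ∈ range (κ + 1), R.coeff m * z (2 * κ - 1 - a - m) := by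
  rw [phi_apply]
  have h1 : ∀ i, (X ^ a * R).coeff i = if a ≤ i then R.coeff (i - a) else 0 := by
    intro i
    rw [coeff_X_pow_mul']
  symm
  refine Eq.trans ?_ (Finset.sum_subset (s₁ := (range (κ + 1)).image (fun m => m + a)) ?_ ?_)
  · rw [Finset.sum_image (by intro x _ y _ h; simpa using h)]
    refine Finset.sum_congr rfl fun m hm => ?_
    rw [h1, if_pos (by omega), Nat.add_sub_cancel, mul_comm]
    congr 2
    omega
  · intro i hi
    rw [mem_image] at hi
    obtain ⟨m, hm, rfl⟩ := hi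
    rw [mem_range] at hm ⊢
    omega
  · intro i _ hi
    rw [h1]
    split_ifs with h
    · rw [coeff_eq_zero_of_natDegree_lt, mul_zero]
      by_contra hcon
      apply hi
      rw [mem_image]
      exact ⟨i - a, mem_range.2 (by omega), by omega⟩
    · rw [mul_zero]

theorem phi_mul_eq_zero {κ : ℕ} {z : ℕ → K} {R U : K[X]} (hR : R.natDegree ≤ κ)
    (hU : U.natDegree < κ)
    (hz : ∀ n, κ ≤ n → n < 2 * κ → ∑ m ∈ range (κ + 1), R.coeff m * z (n - m) = 0) :
    phi κ z (U * R) = 0 := by
  rw [U.as_sum_range_C_mul_X_pow' hU, Finset.sum_mul, map_sum]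
  refine Finset.sum_eq_zero fun a ha => ?_
  rw [mem_range] at ha
  rw [mul_assoc, ← smul_eq_C_mul, map_smul, phi_X_mul hR ha, hz _ (by omega) (by omega), smul_zero]

/-- the Sylvester lemma -/
theorem sylv {R Q : K[X]} {κ : ℕ} (hκ : 0 < κ) (hR : R.natDegree ≤ κ) (hQ : Q.natDegree ≤ κ)
    (hdeg : R.natDegree = κ ∨ Q.natDegree = κ) (hco : IsCoprime Q R) {z : ℕ → K}
    (hzR : ∀ n, κ ≤ n → n < 2 * κ → ∑ m ∈ range (κ + 1), R.coeff m * z (n - m) = 0)
    (hzQ : ∀ n, κ ≤ n → n < 2 * κ → ∑ m ∈ range (κ + 1), Q.coeff m * z (n - m) = 0) :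
    ∀ i, i < 2 * κ → z i = 0 := by
  intro i hi
  have h0 : phi κ z (X ^ (2 * κ - 1 - i)) = 0 := by
    have hS : (X ^ (2 * κ - 1 - i) : K[X]).natDegree < 2 * κ := by
      rw [natDegree_X_pow]; omega
    rcases hdeg with h | h
    · obtain ⟨U, V, hU, hV, he⟩ := bez hκ h hQ hco hS
      rw [he, map_add, phi_mul_eq_zero hR hU hzR, phi_mul_eq_zero hQ hV hzQ, add_zero]
    · obtain ⟨U, V, hU, hV, he⟩ := bez hκ h hR hco.symm hS
      rw [he, map_add, phi_mul_eq_zero hQ hU hzQ, phi_mul_eq_zero hR hV hzR, add_zero]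
  rw [phi_apply, Finset.sum_eq_single (2 * κ - 1 - i)] at h0
  · rw [coeff_X_pow_self, mul_one] at h0
    have : 2 * κ - 1 - (2 * κ - 1 - i) = i := by omega
    rwa [this] at h0
  · intro j _ hj
    rw [coeff_X_pow, if_neg hj, mul_zero]
  · intro h
    exfalso
    apply h
    rw [mem_range]; omega

/-- the windows -/
def Wn (κ T : ℕ) : Finset ℕ := (range T ×ˢ range κ).image fun p => 2 * κ * p.1 + p.2

theorem card_Wn (κ T : ℕ) : (Wn κ T).card = κ * T := by
  unfold Wn
  rw [Finset.card_image_of_injOn, card_product, card_range, card_range, mul_comm]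
  rintro ⟨t, r⟩ h ⟨t', r'⟩ h' he
  rw [mem_coe, mem_product, mem_range, mem_range] at h h'
  simp only at h h' he
  obtain ⟨_, hr⟩ := h
  obtain ⟨_, hr'⟩ := h'
  have h1 : t = t' := by
    rcases lt_trichotomy t t' with hlt | heq | hgt
    · exfalso
      have : 2 * κ * (t + 1) ≤ 2 * κ * t' := Nat.mul_le_mul_left _ hlt
      rw [mul_add] at this
      omega
    · exact heq
    · exfalso
      have : 2 * κ * (t' + 1) ≤ 2 * κ * t := Nat.mul_le_mul_left _ hgt
      rw [mul_add] at this
      omega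
  subst h1
  have : r = r' := by omega
  rw [this]

theorem coeff_mul_window {R Z : K[X]} {κ n : ℕ} (hR : R.natDegree ≤ κ) (hn : κ ≤ n) :
    (R * Z).coeff n = ∑ m ∈ range (κ + 1), R.coeff m * Z.coeff (n - m) := by
  rw [coeff_mul, Finset.Nat.sum_antidiagonal_eq_sum_range_succ_mk]
  simp only
  symm
  refine Finset.sum_subset ?_ ?_
  · intro m hm
    rw [mem_range] at hm ⊢
    omega
  · intro m _ hm
    rw [mem_range, not_lt] at hm
    rw [coeff_eq_zero_of_natDegree_lt (by omega), zero_mul]

theorem window {R Q : K[X]} {κ d : ℕ} (hκ : 0 < κ) (hR : R.natDegree ≤ κ) (hQ : Q.natDegree ≤ κ)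
    (hdeg : R.natDegree = κ ∨ Q.natDegree = κ) (hco : IsCoprime Q R) (hd : 2 * κ ≤ d)
    {Z : K[X]} (hZ : Z.natDegree < d)
    (hRZ : ∀ n, κ ≤ n → n < d → n ∉ Wn κ (d / (2 * κ)) → (R * Z).coeff n = 0)
    (hQZ : ∀ n, κ ≤ n → n < d → n ∉ Wn κ (d / (2 * κ)) → (Q * Z).coeff n = 0) : Z = 0 := by
  set T := d / (2 * κ) with hT
  have hTd : 2 * κ * T ≤ d := Nat.mul_div_le d (2 * κ)
  -- membership in the windows
  have hgap : ∀ t n, κ ≤ n → n < 2 * κ → 2 * κ * t + n ∉ Wn κ T := by
    intro t n h1 h2 h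
    unfold Wn at h
    rw [mem_image] at h
    obtain ⟨⟨t', r⟩, h3, h4⟩ := h
    rw [mem_product, mem_range, mem_range] at h3
    simp only at h3 h4
    rcases lt_trichotomy t t' with hlt | heq | hgt
    · have : 2 * κ * (t + 1) ≤ 2 * κ * t' := Nat.mul_le_mul_left _ hlt
      rw [mul_add] at this
      omega
    · subst heq; omega
    · have : 2 * κ * (t' + 1) ≤ 2 * κ * t := Nat.mul_le_mul_left _ hgt
      rw [mul_add] at this
      omega
  have hend : ∀ n, 2 * κ * T ≤ n → n ∉ Wn κ T := by
    intro n hn h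
    unfold Wn at h
    rw [mem_image] at h
    obtain ⟨⟨t', r⟩, h3, h4⟩ := h
    rw [mem_product, mem_range, mem_range] at h3
    simp only at h3 h4
    have : 2 * κ * (t' + 1) ≤ 2 * κ * T := Nat.mul_le_mul_left _ h3.1
    rw [mul_add] at this
    omega
  -- the blocks
  have hblock : ∀ t, t < T → ∀ i, i < 2 * κ → Z.coeff (2 * κ * t + i) = 0 := by
    intro t ht
    have hle : 2 * κ * (t + 1) ≤ 2 * κ * T := Nat.mul_le_mul_left _ ht
    rw [mul_add, mul_one] at hle
    refine sylv (z := fun i => Z.coeff (2 * κ * t + i)) hκ hR hQ hdeg hco ?_ ?_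
    · intro n h1 h2
      have h3 := hRZ (2 * κ * t + n) (by omega) (by omega) (hgap t n h1 h2)
      rw [coeff_mul_window hR (by omega)] at h3
      rw [← h3]
      refine Finset.sum_congr rfl fun m hm => ?_
      rw [mem_range] at hm
      congr 2
      omega
    · intro n h1 h2
      have h3 := hQZ (2 * κ * t + n) (by omega) (by omega) (hgap t n h1 h2)
      rw [coeff_mul_window hQ (by omega)] at h3
      rw [← h3]
      refine Finset.sum_congr rfl fun m hm => ?_
      rw [mem_range] at hm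
      congr 2
      omega
  have hfirst : ∀ n, n < 2 * κ * T → Z.coeff n = 0 := by
    intro n hn
    have h1 := Nat.div_add_mod n (2 * κ)
    have h2 : n / (2 * κ) < T := by
      rw [Nat.div_lt_iff_lt_mul (by omega), mul_comm]; exact hn
    rw [← h1]
    exact hblock _ h2 _ (Nat.mod_lt _ (by omega))
  have hT1 : 1 ≤ T := (Nat.one_le_div_iff (by omega)).2 hd
  have hall : ∀ n, n < d → Z.coeff n = 0 := by
    intro n
    induction n using Nat.strong_induction_on with
    | _ n ih =>
      intro hn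
      by_cases h1 : n < 2 * κ * T
      · exact hfirst n h1
      · rw [not_lt] at h1
        have h2κ : 2 * κ * 1 ≤ 2 * κ * T := Nat.mul_le_mul_left _ hT1
        have key : ∀ P : K[X], P.natDegree ≤ κ → (P * Z).coeff n = 0 →
            P.coeff 0 * Z.coeff n = 0 := by
          intro P hP h
          rw [coeff_mul_window hP (by omega), Finset.sum_range_succ'] at h
          rw [Finset.sum_eq_zero, zero_add] at h
          · simpa using h
          · intro m hm
            rw [mem_range] at hm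
            rw [ih (n - (m + 1)) (by omega) (by omega), mul_zero]
        have e1 := key R hR (hRZ n (by omega) hn (hend n h1))
        have e2 := key Q hQ (hQZ n (by omega) hn (hend n h1))
        by_contra hne
        have f1 : R.coeff 0 = 0 := (mul_eq_zero.1 e1).resolve_right hne
        have f2 : Q.coeff 0 = 0 := (mul_eq_zero.1 e2).resolve_right hne
        rw [← X_dvd_iff] at f1 f2
        have := hco.isUnit_of_dvd' f2 f1
        exact not_isUnit_X this
  ext n
  rw [coeff_zero]
  by_cases hn : n < d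
  · exact hall n hn
  · exact coeff_eq_zero_of_natDegree_lt (by omega)

end RR
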