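import Pool.Agent.Lib_helper72.RR.Pade

/-!
Padé approximants of elements of a pure extension.
-/

namespace RR

open Finset Polynomial

open scoped IntermediateField

variable {K L : Type*} [Field K] [Field L] [Algebra K L]

/-- representation by polynomials of small degree -/
theorem rep {g : L} (hg : IsIntegral K g) {b : L} (hb : b ∈ K⟮g⟯) :
    ∃ A : K[X], A.natDegree < (minpoly K g).natDegree ∧ aeval g A = b := by
  obtain ⟨f, hf, he⟩ := (IntermediateField.adjoin.powerBasis hg).exists_eq_aeval ⟨b, hb⟩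
  rw [IntermediateField.adjoin.powerBasis_dim] at hf
  rw [IntermediateField.adjoin.powerBasis_gen] at he
  refine ⟨f, hf, ?_⟩
  have h1 := congrArg (algebraMap K⟮g⟯ L) he
  rw [← aeval_algebraMap_apply, IntermediateField.AdjoinSimple.algebraMap_gen] at h1
  exact h1.symm

theorem aeval_mem {g : L} (A : K[X]) : aeval g A ∈ K⟮g⟯ := by
  have h : aeval g A = algebraMap K⟮g⟯ L (aeval (IntermediateField.AdjoinSimple.gen K g) A) := by
    rw [← aeval_algebraMap_apply, IntermediateField.AdjoinSimple.algebraMap_gen]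
  rw [h]
  exact (aeval (IntermediateField.AdjoinSimple.gen K g) A).2

theorem isInt_of_minpoly {g : L} {d : ℕ} {t : K} (hd : 0 < d) (hm : minpoly K g = X ^ d - C t) :
    IsIntegral K g := by
  by_contra h
  rw [minpoly.eq_zero h] at hm
  exact X_pow_sub_C_ne_zero hd t hm.symm

theorem natDegree_of_minpoly {g : L} {d : ℕ} {t : K} (hm : minpoly K g = X ^ d - C t) :
    (minpoly K g).natDegree = d := by
  rw [hm, natDegree_X_pow_sub_C]

theorem coef_eq {g : L} {d κ : ℕ} {t : K} (hd : 0 < d) (hm : minpoly K g = X ^ d - C t)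
    {P Y : K[X]} (hP : P.natDegree < d + κ) (hY : Y.natDegree < d) (he : aeval g P = aeval g Y)
    {n : ℕ} (h1 : κ ≤ n) (h2 : n < d) : P.coeff n = Y.coeff n := by
  have h3 : minpoly K g ∣ P - Y := minpoly.dvd K g (by rw [map_sub, he, sub_self])
  obtain ⟨E, hE⟩ := h3
  rw [hm] at hE
  by_cases hE0 : E = 0
  · rw [hE0, mul_zero, sub_eq_zero] at hE
    rw [hE]
  have h4 : (P - Y).natDegree = d + E.natDegree := by
    rw [hE, natDegree_mul (X_pow_sub_C_ne_zero hd t) hE0, natDegree_X_pow_sub_C]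
  have h5 : (P - Y).natDegree < d + κ ∨ (P - Y).natDegree < d := by
    have := natDegree_sub_le P Y
    rcases le_max_iff.1 this with h | h
    · left; omega
    · right; omega
  have h6 : E.natDegree < n := by omega
  have h7 : (P - Y).coeff n = 0 := by
    rw [hE, sub_mul, coeff_sub, coeff_X_pow_mul', if_neg (by omega), coeff_C_mul,
      coeff_eq_zero_of_natDegree_lt h6, mul_zero, sub_zero]
  rw [coeff_sub, sub_eq_zero] at h7
  exact h7

theorem aeval_ne_zero_of_natDegree_lt {g : L} {A : K[X]} (hA : A ≠ 0)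
    (h : A.natDegree < (minpoly K g).natDegree) : aeval g A ≠ 0 := by
  intro h0
  have := natDegree_le_of_dvd (minpoly.dvd K g h0) hA
  omega

theorem pade_exists {g b : L} (hg : IsIntegral K g) (hb : b ∈ K⟮g⟯) {κ : ℕ}
    (h1 : (minpoly K g).natDegree < 2 * (κ + 1)) (h2 : κ < (minpoly K g).natDegree) :
    ∃ Q R : K[X], Q ≠ 0 ∧ Q.natDegree ≤ κ ∧ R.natDegree ≤ κ ∧ b * aeval g Q = aeval g R := by
  classical
  set x : K⟮g⟯ := IntermediateField.AdjoinSimple.gen K g with hx
  set b' : K⟮g⟯ := ⟨b, hb⟩ with hb'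
  set v : Fin (κ + 1) ⊕ Fin (κ + 1) → K⟮g⟯ := Sum.elim (fun i => b' * x ^ (i : ℕ))
    (fun i => x ^ (i : ℕ)) with hv
  have : FiniteDimensional K K⟮g⟯ := IntermediateField.adjoin.finiteDimensional hg
  have hdep : ¬ LinearIndependent K v := by
    intro h
    have h3 := h.fintype_card_le_finrank
    rw [IntermediateField.adjoin.finrank hg, Fintype.card_sum, Fintype.card_fin] at h3
    omega
  rw [Fintype.not_linearIndependent_iff] at hdep
  obtain ⟨c, hc, hne⟩ := hdep
  rw [Fintype.sum_sum_type] at hc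
  set Q : K[X] := ∑ i : Fin (κ + 1), C (c (Sum.inl i)) * X ^ (i : ℕ) with hQ
  set R : K[X] := - ∑ i : Fin (κ + 1), C (c (Sum.inr i)) * X ^ (i : ℕ) with hR
  have hdeg : ∀ c' : Fin (κ + 1) → K, (∑ i : Fin (κ + 1), C (c' i) * X ^ (i : ℕ)).natDegree ≤ κ := by
    intro c'
    refine natDegree_sum_le_of_forall_le _ _ fun i _ => ?_
    refine (natDegree_C_mul_X_pow_le _ _).trans ?_
    have := i.2
    omega
  have hcoef : ∀ (c' : Fin (κ + 1) → K) (i : Fin (κ + 1)),
      (∑ i : Fin (κ + 1), C (c' i) * X ^ (i : ℕ)).coeff i = c' i := by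
    intro c' i
    rw [finsetSum_coeff, Finset.sum_eq_single i]
    · rw [coeff_C_mul, coeff_X_pow_self, mul_one]
    · intro j _ hj
      rw [coeff_C_mul, coeff_X_pow, if_neg (fun h => hj (Fin.ext h.symm)), mul_zero]
    · intro h; exact absurd (mem_univ i) h
  have hRdeg : R.natDegree ≤ κ := by rw [hR, natDegree_neg]; exact hdeg _
  have heq : b * aeval g Q = aeval g R := by
    have h3 := congrArg (algebraMap K⟮g⟯ L) hc
    rw [map_add, map_sum, map_sum, map_zero] at h3
    have h4 : ∀ i : Fin (κ + 1), algebraMap K⟮g⟯ L (c (Sum.inl i) • v (Sum.inl i)) =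
        b * (algebraMap K L (c (Sum.inl i)) * g ^ (i : ℕ)) := by
      intro i
      rw [hv, Sum.elim_inl, Algebra.smul_def, map_mul, map_mul, map_pow, hx,
        IntermediateField.AdjoinSimple.algebraMap_gen, ← IsScalarTower.algebraMap_apply]
      have : algebraMap K⟮g⟯ L b' = b := rfl
      rw [this]; ring
    have h5 : ∀ i : Fin (κ + 1), algebraMap K⟮g⟯ L (c (Sum.inr i) • v (Sum.inr i)) =
        algebraMap K L (c (Sum.inr i)) * g ^ (i : ℕ) := by
      intro i
      rw [hv, Sum.elim_inr, Algebra.smul_def, map_mul, map_pow, hx,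
        IntermediateField.AdjoinSimple.algebraMap_gen, ← IsScalarTower.algebraMap_apply]
    simp only [h4, h5] at h3
    rw [← Finset.mul_sum] at h3
    rw [hQ, hR, map_neg, map_sum, map_sum]
    simp only [map_mul, aeval_C, map_pow, aeval_X]
    linear_combination h3
  refine ⟨Q, R, ?_, hdeg _, hRdeg, heq⟩
  intro hQ0
  rw [hQ0, map_zero, mul_zero] at heq
  have hR0 : R = 0 := by
    by_contra hR0
    exact aeval_ne_zero_of_natDegree_lt hR0 (by omega) heq.symm
  obtain ⟨i, hi⟩ := hne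
  apply hi
  rcases i with i | i
  · rw [← hcoef (fun i => c (Sum.inl i)) i, ← hQ, hQ0, coeff_zero]
  · rw [hR, neg_eq_zero] at hR0
    rw [← hcoef (fun i => c (Sum.inr i)) i, hR0, coeff_zero]

theorem pade_min {g b : L} {d : ℕ} {t : K} (hd : 0 < d) (hm : minpoly K g = X ^ d - C t)
    (hb : b ∈ K⟮g⟯) (hbK : b ∉ (algebraMap K L).range) :
    ∃ (κ : ℕ) (Q R : K[X]), 0 < κ ∧ 2 * κ ≤ d ∧ Q ≠ 0 ∧ Q.natDegree ≤ κ ∧ R.natDegree ≤ κ ∧
      (R.natDegree = κ ∨ Q.natDegree = κ) ∧ IsCoprime Q R ∧ b * aeval g Q = aeval g R := by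
  classical
  have hg := isInt_of_minpoly hd hm
  have hdeg := natDegree_of_minpoly hm
  set p : ℕ → Prop := fun κ => ∃ Q R : K[X], Q ≠ 0 ∧ Q.natDegree ≤ κ ∧ R.natDegree ≤ κ ∧
    b * aeval g Q = aeval g R with hp
  have hex : p (d / 2) := pade_exists hg hb (by rw [hdeg]; omega) (by rw [hdeg]; omega)
  have hP : ∃ κ, p κ := ⟨_, hex⟩
  set κ := Nat.find hP with hκ
  obtain ⟨Q, R, hQ0, hQ, hR, he⟩ := Nat.find_spec hP
  rw [← hκ] at hQ hR
  have hκd : κ ≤ d / 2 := Nat.find_min' hP hex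
  have hmin : ∀ m < κ, ¬ p m := fun m hm => Nat.find_min hP hm
  have hκ0 : 0 < κ := by
    by_contra hcon
    have h0 : κ = 0 := by omega
    rw [h0] at hQ hR
    apply hbK
    rw [eq_C_of_natDegree_le_zero hQ, eq_C_of_natDegree_le_zero hR, aeval_C, aeval_C] at he
    have hq : Q.coeff 0 ≠ 0 := by
      intro h
      apply hQ0
      rw [eq_C_of_natDegree_le_zero hQ, h, C_0]
    refine ⟨R.coeff 0 / Q.coeff 0, ?_⟩
    rw [map_div₀, div_eq_iff (by simpa using hq), he]
  have hb0 : b ≠ 0 := by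
    rintro rfl
    exact hbK ⟨0, map_zero _⟩
  have hQg : aeval g Q ≠ 0 := aeval_ne_zero_of_natDegree_lt hQ0 (by omega)
  have hR0 : R ≠ 0 := by
    rintro rfl
    rw [map_zero] at he
    exact mul_ne_zero hb0 hQg he
  refine ⟨κ, Q, R, hκ0, by omega, hQ0, hQ, hR, ?_, ?_, he⟩
  · by_contra hcon
    rw [not_or] at hcon
    refine hmin (κ - 1) (by omega) ⟨Q, R, hQ0, by omega, by omega, he⟩
  · refine isCoprime_of_dvd Q R (by tauto) ?_
    rintro z hz hz0 ⟨Q', rfl⟩ ⟨R', rfl⟩
    have hzd : 0 < z.natDegree := by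
      rw [pos_iff_ne_zero]
      intro h
      apply hz
      rw [mem_nonunits_iff] at *
      exact absurd (Polynomial.isUnit_iff_degree_eq_zero.2
        (by rw [degree_eq_natDegree hz0, h]; rfl)) hz
    have hQ'0 : Q' ≠ 0 := right_ne_zero_of_mul hQ0
    have hR'0 : R' ≠ 0 := right_ne_zero_of_mul hR0
    rw [natDegree_mul hz0 hQ'0] at hQ
    rw [natDegree_mul hz0 hR'0] at hR
    refine hmin (κ - 1) (by omega) ⟨Q', R', hQ'0, by omega, by omega, ?_⟩
    rw [map_mul, map_mul] at he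
    rw [map_mul] at hQg
    have hzg : aeval g z ≠ 0 := left_ne_zero_of_mul hQg
    apply mul_left_cancel₀ hzg
    linear_combination he

theorem pade_window {g b : L} {d : ℕ} {t : K} (hd : 0 < d) (hm : minpoly K g = X ^ d - C t)
    (hb : b ∈ K⟮g⟯) (hbK : b ∉ (algebraMap K L).range) :
    ∃ W : Finset ℕ, W ⊆ range d ∧ d ≤ 4 * W.card ∧ ∀ Y Y' : K[X], Y.natDegree < d →
      Y'.natDegree < d → (∀ n, n ∉ W → Y.coeff n = 0) → (∀ n, n ∉ W → Y'.coeff n = 0) →
      b * aeval g Y = aeval g Y' → Y = 0 := by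
  obtain ⟨κ, Q, R, hκ, hκd, hQ0, hQ, hR, hdeg, hco, he⟩ := pade_min hd hm hb hbK
  have hg := isInt_of_minpoly hd hm
  have hdm := natDegree_of_minpoly hm
  have hQg : aeval g Q ≠ 0 := aeval_ne_zero_of_natDegree_lt hQ0 (by omega)
  have hTd : 2 * κ * (d / (2 * κ)) ≤ d := Nat.mul_div_le d (2 * κ)
  refine ⟨Wn κ (d / (2 * κ)), ?_, ?_, ?_⟩
  · intro n hn
    unfold Wn at hn
    rw [mem_image] at hn
    obtain ⟨⟨t', r⟩, h3, h4⟩ := hn
    rw [mem_product, mem_range, mem_range] at h3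
    simp only at h3 h4
    have : 2 * κ * (t' + 1) ≤ 2 * κ * (d / (2 * κ)) := Nat.mul_le_mul_left _ h3.1
    rw [mul_add] at this
    rw [mem_range]
    omega
  · rw [card_Wn]
    have h1 : d < 2 * κ * (d / (2 * κ) + 1) := Nat.lt_mul_div_succ d (by omega)
    have h2 : 1 ≤ d / (2 * κ) := (Nat.one_le_div_iff (by omega)).2 hκd
    nlinarith
  · intro Y Y' hY hY' hYW hY'W hbY
    have hz : aeval g Y / aeval g Q ∈ K⟮g⟯ := div_mem (aeval_mem Y) (aeval_mem Q)
    obtain ⟨Z, hZ, hZe⟩ := rep hg hz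
    rw [hdm] at hZ
    have e1 : aeval g (Q * Z) = aeval g Y := by
      rw [map_mul, hZe, mul_div_cancel₀ _ hQg]
    have e2 : aeval g (R * Z) = aeval g Y' := by
      rw [map_mul, hZe, ← he, ← hbY]
      field_simp
    have d1 : (Q * Z).natDegree < d + κ := by
      have := natDegree_mul_le (p := Q) (q := Z)
      omega
    have d2 : (R * Z).natDegree < d + κ := by
      have := natDegree_mul_le (p := R) (q := Z)
      omega
    have hZ0 : Z = 0 := by
      refine window hκ hR hQ hdeg hco hκd hZ ?_ ?_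
      · intro n h1 h2 h3
        rw [coef_eq hd hm d2 hY' e2 h1 h2, hY'W n h3]
      · intro n h1 h2 h3
        rw [coef_eq hd hm d1 hY e1 h1 h2, hYW n h3]
    rw [hZ0, mul_zero, map_zero] at e1
    by_contra hne
    exact aeval_ne_zero_of_natDegree_lt hne (by omega) e1.symm

end RR
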