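import Pool.Agent.Lib_helper72.RR.Pade2
import Pool.Agent.Lib_helper72.RR.MI2
import Pool.Agent.Lib_helper72.RR.Comb
import Pool.Agent.Lib_helper72.RR.Exch

/-!
An element of a pure extension with integral coefficients is a monomial or has large height.
-/

namespace RR

open Finset Polynomial Matrix MS

open scoped IntermediateField

section general

variable {d : ℕ} [NeZero d]

theorem sum_zmod {M : Type*} [AddCommMonoid M] (f : ℕ → M) :
    ∑ l : ZMod d, f l.val = ∑ n ∈ range d, f n := by
  obtain ⟨m, rfl⟩ := Nat.exists_eq_succ_of_ne_zero (NeZero.ne d)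
  exact Fin.sum_univ_eq_sum_range f (m + 1)

variable {K L : Type*} [Field K] [Field L] [Algebra K L]

/-- the polynomial with given coefficients -/
noncomputable def pol (y : ZMod d → K) : K[X] := ∑ j : ZMod d, C (y j) * X ^ j.val

theorem pol_natDegree (y : ZMod d → K) : (pol y).natDegree < d := by
  have hd : 0 < d := NeZero.pos d
  have h : (pol y).natDegree ≤ d - 1 := by
    refine natDegree_sum_le_of_forall_le _ _ fun i _ => ?_
    refine (natDegree_C_mul_X_pow_le _ _).trans ?_
    have := ZMod.val_lt i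
    omega
  omega

theorem pol_coeff (y : ZMod d → K) (j : ZMod d) : (pol y).coeff j.val = y j := by
  unfold pol
  rw [finsetSum_coeff, Finset.sum_eq_single j]
  · rw [coeff_C_mul, coeff_X_pow_self, mul_one]
  · intro i _ hi
    rw [coeff_C_mul, coeff_X_pow, if_neg, mul_zero]
    intro h
    exact hi (ZMod.val_injective d h).symm
  · intro h; exact absurd (mem_univ _) h

theorem pol_coeff_eq (y : ZMod d → K) (n : ℕ) (hn : n < d) :
    (pol y).coeff n = y (n : ZMod d) := by
  rw [← pol_coeff y (n : ZMod d), ZMod.val_natCast_of_lt hn]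

theorem aeval_pol (y : ZMod d → K) (g : L) :
    aeval g (pol y) = ∑ j : ZMod d, algebraMap K L (y j) * g ^ j.val := by
  unfold pol
  rw [map_sum]
  refine Finset.sum_congr rfl fun j _ => ?_
  rw [map_mul, aeval_C, map_pow, aeval_X]

theorem aeval_eq_sum {A : K[X]} (hA : A.natDegree < d) (g : L) :
    aeval g A = ∑ j : ZMod d, algebraMap K L (A.coeff j.val) * g ^ j.val := by
  rw [aeval_eq_sum_range' hA, sum_zmod (d := d) (fun n => algebraMap K L (A.coeff n) * g ^ n)]
  exact Finset.sum_congr rfl fun n _ => by rw [Algebra.smul_def]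

/-- the coefficients of `b = A(g)` in the circulant convention -/
noncomputable def aa (A : K[X]) (g : L) (l : ZMod d) : L := algebraMap K L (A.coeff l.val) * g ^ l.val

/-- the matrix of the multiplication by `A(g)` -/
noncomputable def Bm (A : K[X]) (t : K) : Matrix (ZMod d) (ZMod d) K :=
  Matrix.of fun i j => A.coeff (i - j).val * (if j.val ≤ i.val then 1 else t)

theorem val_sub' (i j : ZMod d) : (i - j).val = if j.val ≤ i.val then i.val - j.val else
    d + i.val - j.val := by
  have hi := ZMod.val_lt i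
  have hj := ZMod.val_lt j
  split_ifs with h
  · exact ZMod.val_sub h
  · have h1 : (i - j) = ((d + i.val - j.val : ℕ) : ZMod d) := by
      rw [Nat.cast_sub (by omega), Nat.cast_add, ZMod.natCast_self, zero_add,
        ZMod.natCast_zmod_val, ZMod.natCast_zmod_val]
    rw [h1, ZMod.val_natCast_of_lt (by omega)]

theorem aa_mul (A : K[X]) {g : L} {t : K} (ht : g ^ d = algebraMap K L t) (i j : ZMod d) :
    aa A g (i - j) * g ^ j.val = algebraMap K L (Bm A t i j) * g ^ i.val := by
  unfold aa Bm
  have hi := ZMod.val_lt i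
  have hj := ZMod.val_lt j
  rw [Matrix.of_apply, map_mul, mul_assoc, ← pow_add, mul_assoc]
  congr 1
  rw [val_sub']
  split_ifs with h
  · rw [map_one, one_mul]
    congr 1
    omega
  · rw [← ht, ← pow_add]
    congr 1
    omega

/-- the multiplication -/
theorem mul_pol {A : K[X]} (hA : A.natDegree < d) {g : L} {t : K} (ht : g ^ d = algebraMap K L t)
    (y : ZMod d → K) :
    aeval g A * aeval g (pol y) = ∑ i : ZMod d, algebraMap K L ((Bm A t *ᵥ y) i) * g ^ i.val := by
  have h1 : ∀ i : ZMod d, algebraMap K L ((Bm A t *ᵥ y) i) * g ^ i.val =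
      ∑ j, algebraMap K L (y j) * g ^ j.val * aa A g (i - j) := by
    intro i
    simp only [Matrix.mulVec, dotProduct]
    rw [map_sum, Finset.sum_mul]
    refine Finset.sum_congr rfl fun j _ => ?_
    rw [map_mul]
    have := aa_mul A ht i j
    linear_combination (-algebraMap K L (y j)) * this
  simp only [h1]
  rw [Finset.sum_comm, aeval_pol, Finset.mul_sum]
  refine Finset.sum_congr rfl fun j _ => ?_
  rw [← Finset.mul_sum, mul_comm]
  congr 1
  rw [aeval_eq_sum hA g]
  exact (Equiv.sum_comp (Equiv.subRight j) (aa A g)).symm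

theorem pol_eq_zero {y : ZMod d → K} (h : pol y = 0) : y = 0 := by
  funext j
  rw [← pol_coeff y j, h, coeff_zero, Pi.zero_apply]

theorem Bm_det {A : K[X]} (hA : A.natDegree < d) {g : L} {t : K}
    (hm : minpoly K g = X ^ d - C t) (hA0 : A ≠ 0) : (Bm A t : Matrix (ZMod d) (ZMod d) K).det ≠ 0 := by
  have hd : 0 < d := NeZero.pos d
  have hdm := natDegree_of_minpoly hm
  have hgd : g ^ d = algebraMap K L t := by
    have := minpoly.aeval K g
    rw [hm, map_sub, map_pow, aeval_X, aeval_C, sub_eq_zero] at this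
    exact this
  intro h0
  obtain ⟨y, hy, hy0⟩ := Matrix.exists_mulVec_eq_zero_iff.2 h0
  apply hy
  have h1 := mul_pol hA hgd y
  rw [hy0] at h1
  simp only [Pi.zero_apply, map_zero, zero_mul, Finset.sum_const_zero] at h1
  rcases mul_eq_zero.1 h1 with h2 | h2
  · exact absurd h2 (aeval_ne_zero_of_natDegree_lt hA0 (by rw [hdm]; exact hA))
  · apply pol_eq_zero
    by_contra hne
    exact aeval_ne_zero_of_natDegree_lt hne (by rw [hdm]; exact pol_natDegree y) h2

/-- the determinants -/
theorem XM_det {A : K[X]} {g : L} (hg : g ≠ 0) {t : K} (hgd : g ^ d = algebraMap K L t)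
    (J : Finset (ZMod d)) (π : Equiv.Perm (ZMod d)) (h : (XA (Bm A t) J π).det ≠ 0) :
    (XM (aa A g) J π).det ≠ 0 := by
  have h1 : XM (aa A g) J π = Matrix.diagonal (fun i : ZMod d => g ^ i.val) *
      ((algebraMap K L).mapMatrix (XA (Bm A t) J π)) *
      Matrix.diagonal (fun j => if j ∈ J then (g ^ j.val)⁻¹ else (g ^ (π j).val)⁻¹) := by
    ext i j
    rw [Matrix.mul_diagonal, Matrix.diagonal_mul, RingHom.mapMatrix_apply, Matrix.map_apply]
    unfold XM XA
    rw [Matrix.of_apply, Matrix.of_apply]
    have hgi : ∀ k : ℕ, g ^ k ≠ 0 := fun k => pow_ne_zero _ hg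
    by_cases hj : j ∈ J
    · rw [if_pos hj, if_pos hj, if_pos hj]
      rw [eq_mul_inv_iff_mul_eq₀ (hgi _), aa_mul A hgd i j, mul_comm]
    · rw [if_neg hj, if_neg hj, if_neg hj]
      by_cases hij : i = π j
      · rw [if_pos hij, if_pos hij, map_one, mul_one, hij, mul_inv_cancel₀ (hgi _)]
      · rw [if_neg hij, if_neg hij, map_zero, mul_zero, zero_mul]
  rw [h1, Matrix.det_mul, Matrix.det_mul, Matrix.det_diagonal, Matrix.det_diagonal,
    ← RingHom.map_det]
  refine mul_ne_zero (mul_ne_zero ?_ ?_) ?_
  · exact Finset.prod_ne_zero_iff.2 fun i _ => pow_ne_zero _ hg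
  · rw [Ne, map_eq_zero]
    exact h
  · refine Finset.prod_ne_zero_iff.2 fun j _ => ?_
    split_ifs
    · exact inv_ne_zero (pow_ne_zero _ hg)
    · exact inv_ne_zero (pow_ne_zero _ hg)

end general

end RR
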