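import Pool.Agent.Lib_helper72.RR.ThmA

/-!
An element of a pure extension with integral coefficients is a monomial or has large height.
-/

namespace RR

open Finset Polynomial Matrix MS

open scoped IntermediateField

section general

variable {d : ℕ} [NeZero d]
variable {K L : Type*} [Field K] [Field L] [Algebra K L]

theorem bk_aa {A : K[X]} (hA : A.natDegree < d) (g : L) (ψ : AddChar (ZMod d) L) (k : ZMod d) :
    bk ψ (aa A g) k = aeval (ψ k * g) A := by
  unfold bk aa
  rw [aeval_eq_sum hA]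
  refine Finset.sum_congr rfl fun l _ => ?_
  have h1 : k * l = l.val • k := by
    rw [nsmul_eq_mul, ZMod.natCast_zmod_val, mul_comm]
  rw [h1, AddChar.map_nsmul_eq_pow, mul_pow]
  ring

theorem char_pow (ψ : AddChar (ZMod d) L) (k : ZMod d) : ψ k ^ d = 1 := by
  rw [← AddChar.map_nsmul_eq_pow, nsmul_eq_mul, ZMod.natCast_self, zero_mul,
    AddChar.map_zero_eq_one]

theorem weight_ge {β : ZMod d → ℝ} (hβ : ∀ l, 0 ≤ β l) {J I : Finset (ZMod d)}
    {π : Equiv.Perm (ZMod d)} (hI : ∀ j, j ∈ J ↔ π j ∈ I) {W : Finset (ZMod d)} (hW : W ⊆ J)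
    {l : ZMod d} (hl : ∀ j ∈ W, j + l ∉ I) :
    β l * (W.card : ℝ) ≤ ∑ j ∈ J, ∑ i ∈ Jᶜ, β (π i - j) := by
  rw [weight_eq β hI]
  refine le_trans ?_ (Finset.single_le_sum
    (f := fun l => β l * ((J.filter fun j => j + l ∉ I).card : ℝ))
    (fun i _ => mul_nonneg (hβ i) (Nat.cast_nonneg _)) (mem_univ l))
  refine mul_le_mul_of_nonneg_left ?_ (hβ l)
  have : W ⊆ J.filter fun j => j + l ∉ I := by
    intro j hj
    rw [mem_filter]
    exact ⟨hW hj, hl j hj⟩
  exact_mod_cast Finset.card_le_card this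

/-- the window in `ZMod d` -/
theorem window_zmod {A : K[X]} (hA : A.natDegree < d) {g : L} (hg : g ≠ 0) {t : K}
    (hm : minpoly K g = X ^ d - C t) (l : ZMod d)
    (hmon : ∀ c : K, aeval g A ≠ algebraMap K L c * g ^ l.val) :
    ∃ W : Finset (ZMod d), d ≤ 4 * W.card ∧ ∀ y : ZMod d → K, (∀ j ∉ W, y j = 0) →
      (∀ i, i - l ∉ W → (Bm A t *ᵥ y) i = 0) → y = 0 := by
  classical
  have hd : 0 < d := NeZero.pos d
  have hgd : g ^ d = algebraMap K L t := by
    have := minpoly.aeval K g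
    rw [hm, map_sub, map_pow, aeval_X, aeval_C, sub_eq_zero] at this
    exact this
  have ht0 : t ≠ 0 := by
    rintro rfl
    rw [map_zero] at hgd
    exact pow_ne_zero d hg hgd
  have hgk : ∀ k : ℕ, g ^ k ≠ 0 := fun k => pow_ne_zero _ hg
  have hgmem : g ∈ K⟮g⟯ := IntermediateField.mem_adjoin_simple_self K g
  set b : L := aeval g A / g ^ l.val with hb
  have hbm : b ∈ K⟮g⟯ := div_mem (aeval_mem A) (pow_mem hgmem _)
  have hbK : b ∉ (algebraMap K L).range := by
    rintro ⟨c, hc⟩
    apply hmon c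
    rw [hc, hb, div_mul_cancel₀ _ (hgk _)]
  obtain ⟨W, hWd, hWc, hW⟩ := pade_window hd hm hbm hbK
  have hcard : (univ.filter fun x : ZMod d => x.val ∈ W).card = W.card := by
    refine Finset.card_bij (fun x _ => x.val) ?_ ?_ ?_
    · intro x hx; exact (mem_filter.1 hx).2
    · intro x _ y _ h; exact ZMod.val_injective d h
    · intro n hn
      have hnd := mem_range.1 (hWd hn)
      refine ⟨(n : ZMod d), ?_, ZMod.val_natCast_of_lt hnd⟩
      rw [mem_filter, ZMod.val_natCast_of_lt hnd]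
      exact ⟨mem_univ _, hn⟩
  refine ⟨univ.filter fun x : ZMod d => x.val ∈ W, by rw [hcard]; exact hWc, ?_⟩
  intro y hy1 hy2
  -- the second polynomial
  set y' : ZMod d → K := fun m => (Bm A t *ᵥ y) (m + l) *
    (if m.val + l.val < d then 1 else t⁻¹) with hy'
  have hcoef : ∀ z : ZMod d → K, (∀ j : ZMod d, j.val ∉ W → z j = 0) →
      ∀ n, n ∉ W → (pol z).coeff n = 0 := by
    intro z hz n hn
    by_cases hnd : n < d
    · rw [pol_coeff_eq z n hnd]
      apply hz
      rw [ZMod.val_natCast_of_lt hnd]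
      exact hn
    · exact coeff_eq_zero_of_natDegree_lt (by have := pol_natDegree z; omega)
  have hyW : ∀ j : ZMod d, j.val ∉ W → y j = 0 := by
    intro j hj
    apply hy1
    rw [mem_filter]
    exact fun h => hj h.2
  have hy'W : ∀ j : ZMod d, j.val ∉ W → y' j = 0 := by
    intro j hj
    rw [hy']
    simp only
    rw [hy2 (j + l), zero_mul]
    rw [add_sub_cancel_right, mem_filter]
    exact fun h => hj h.2
  have hmul : b * aeval g (pol y) = aeval g (pol y') := by
    rw [hb, div_mul_eq_mul_div, div_eq_iff (hgk _), mul_pol hA hgd y, aeval_pol, Finset.sum_mul]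
    rw [← Equiv.sum_comp (Equiv.addRight l)]
    refine Finset.sum_congr rfl fun m _ => ?_
    simp only [Equiv.coe_addRight, hy']
    have hm1 := ZMod.val_lt m
    have hm2 := ZMod.val_lt l
    have hval := ZMod.val_add m l
    split_ifs with h
    · rw [Nat.mod_eq_of_lt h] at hval
      rw [hval, mul_one, pow_add]
      ring
    · have h3 : (m.val + l.val) % d = m.val + l.val - d := by
        rw [Nat.mod_eq_sub_mod (by omega), Nat.mod_eq_of_lt (by omega)]
      rw [h3] at hval
      have h4 : g ^ (m.val) * g ^ (l.val) = g ^ (m + l).val * algebraMap K L t := by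
        rw [← hgd, ← pow_add, ← pow_add, hval]
        congr 1
        omega
      rw [map_mul, map_inv₀]
      have h5 : algebraMap K L t ≠ 0 := by rw [Ne, map_eq_zero]; exact ht0
      field_simp
      linear_combination (-algebraMap K L ((Bm A t *ᵥ y) (m + l))) * h4
  exact pol_eq_zero (hW (pol y) (pol y') (pol_natDegree y) (pol_natDegree y')
    (hcoef y hyW) (hcoef y' hy'W) hmul)

end general

section closure

universe u

variable {Ω : Type u} [Field Ω] [Algebra ℚ Ω] [Algebra.IsAlgebraic ℚ Ω]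

/-- heights of the conjugates -/
theorem ht_conj {K : IntermediateField ℚ Ω} {g g' : Ω} {d : ℕ} (hd : 0 < d) {t : K}
    (hm : minpoly K g = X ^ d - C t) (hg' : g' ^ d = algebraMap K Ω t) (A : K[X]) :
    ht (aeval g' A) = ht (aeval g A) ∧ (aeval g A ≠ 0 → aeval g' A ≠ 0) := by
  have hint := isInt_of_minpoly hd hm
  set pb := IntermediateField.adjoin.powerBasis hint with hpb
  have hgen : pb.gen = IntermediateField.AdjoinSimple.gen K g :=
    IntermediateField.adjoin.powerBasis_gen hint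
  have hroot : aeval g' (minpoly K pb.gen) = 0 := by
    rw [hgen, IntermediateField.minpoly_gen, hm, map_sub, map_pow, aeval_X, aeval_C, hg', sub_self]
  have h1 : pb.lift g' hroot (aeval pb.gen A) = aeval g' A := pb.lift_aeval g' hroot A
  have h2 : algebraMap K⟮g⟯ Ω (aeval pb.gen A) = aeval g A := by
    rw [hgen, ← aeval_algebraMap_apply, IntermediateField.AdjoinSimple.algebraMap_gen]
  constructor
  · rw [← h1, ← h2]
    have e1 := ht_ringHom ((pb.lift g' hroot : K⟮g⟯ →ₐ[K] Ω) : K⟮g⟯ →+* Ω) (aeval pb.gen A)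
    have e2 := ht_ringHom (algebraMap K⟮g⟯ Ω) (aeval pb.gen A)
    rw [e2, ← e1]
    rfl
  · intro h
    rw [← h1]
    rw [← h2] at h
    rw [Ne, map_eq_zero]
    intro h0
    apply h
    rw [h0, map_zero]

/-- **Theorem A.** -/
theorem thmA {K : IntermediateField ℚ Ω} {g : Ω} (hg : g ≠ 0) {d : ℕ} [NeZero d] {t : K}
    (hm : minpoly K g = X ^ d - C t) {ψ : AddChar (ZMod d) Ω} (ho : Orth ψ) {A : K[X]}
    (hA : A.natDegree < d) (hA0 : A ≠ 0)
    (hint : ∀ (l : ℕ) [Fact l.Prime], l ∣ d → ∀ τ : Ω →+* PadicAlgCl l, ∀ n,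
      ‖τ (algebraMap K Ω (A.coeff n) * g ^ n)‖ ≤ 1) :
    (∃ (c : K) (j : ℕ), aeval g A = algebraMap K Ω c * g ^ j) ∨ 1 / 32 ≤ ht (aeval g A) := by
  have hd : 0 < d := NeZero.pos d
  have hdR : (0 : ℝ) < d := by exact_mod_cast hd
  have hdm := natDegree_of_minpoly hm
  have hgd : g ^ d = algebraMap K Ω t := by
    have := minpoly.aeval K g
    rw [hm, map_sub, map_pow, aeval_X, aeval_C, sub_eq_zero] at this
    exact this
  set h := ht (aeval g A) with hh
  have hh0 : 0 ≤ h := ht_nonneg _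
  have hA1 : aeval g A ≠ 0 := aeval_ne_zero_of_natDegree_lt hA0 (by rw [hdm]; exact hA)
  have hconj : ∀ k : ZMod d, (ψ k * g) ^ d = algebraMap K Ω t := by
    intro k
    rw [mul_pow, char_pow, one_mul, hgd]
  obtain ⟨β, hβ0, hβ1, hβ2, hβ3⟩ := main_omega ho (aa A g) (h := h)
    (fun l _ hl τ x => hint l hl τ x.val)
    (fun k => by rw [bk_aa hA]; exact (ht_conj hd hm (hconj k) A).2 hA1)
    (fun k => by rw [bk_aa hA]; exact (ht_conj hd hm (hconj k) A).1)
  have hdet := Bm_det hA hm hA0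
  -- step 1
  obtain ⟨l, hl⟩ : ∃ l, 1 - 24 * h ≤ β l := by
    refine concentrate hβ0 hβ1 hh0 hβ2 fun I => ?_
    obtain ⟨J, π, _, hJ, hJd⟩ := exchange hdet I ∅ (fun y hy _ => funext fun j => hy j (by simp))
    exact ⟨J, π, hJ, hβ3 J π (XM_det hg hgd J π hJd)⟩
  -- step 2
  by_cases hmon : ∃ c : K, aeval g A = algebraMap K Ω c * g ^ l.val
  · obtain ⟨c, hc⟩ := hmon
    exact Or.inl ⟨c, l.val, hc⟩
  right
  push Not at hmon
  obtain ⟨W, hWc, hW⟩ := window_zmod hA hg hm l hmon
  classical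
  obtain ⟨J, π, hWJ, hJ, hJd⟩ := exchange hdet (univ.filter fun i => i - l ∉ W) W
    (fun y hy1 hy2 => hW y hy1 fun i hi => hy2 i (by rw [mem_filter]; exact ⟨mem_univ _, hi⟩))
  have h1 := hβ3 J π (XM_det hg hgd J π hJd)
  have h2 := weight_ge hβ0 hJ hWJ (l := l) (fun j hj => by
    rw [mem_filter, add_sub_cancel_right]
    exact fun h => h.2 hj)
  have h3 : (d : ℝ) ≤ 4 * W.card := by exact_mod_cast hWc
  have hWpos : (0 : ℝ) < W.card := by linarith
  have h4 : β l * W.card ≤ 8 * h * W.card := by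
    calc β l * W.card ≤ 2 * (d * h) := h2.trans h1
      _ ≤ 2 * (4 * W.card * h) := by
        have := mul_le_mul_of_nonneg_right h3 hh0
        linarith
      _ = _ := by ring
  have h5 : β l ≤ 8 * h := le_of_mul_le_mul_right h4 hWpos
  linarith

end closure

end RR
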